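import Mathlib

/-!
Definitions for the `q`-spectrum of the Dirichlet Laplacian and its Lusternik-Schnirelman part
(problem MP_eb4995_an).  `E` is the Euclidean space and `μ` the Lebesgue measure on it.
-/

namespace Pool.Agent.Lib.MP_eb4995_an

open MeasureTheory
open scoped ContDiff

section L2

variable {E : Type} [MeasurableSpace E]

/-- The space `L²(μ; F)`. -/
def L2 (F : Type) [NormedAddCommGroup F] (μ : Measure E) : Type := Lp F 2 μ

/-- The usual norm of `L²`. -/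
noncomputable instance L2.normed (F : Type) [NormedAddCommGroup F] (μ : Measure E) :
    NormedAddCommGroup (L2 F μ) := Lp.instNormedAddCommGroup

/-- A representative of an element of `L²`. -/
noncomputable def L2.fn {F : Type} [NormedAddCommGroup F] {μ : Measure E} (f : L2 F μ) : E → F :=
  (show Lp F 2 μ from f)

end L2

variable {E : Type} [NormedAddCommGroup E] [InnerProductSpace ℝ E] [CompleteSpace E]
  [MeasurableSpace E]

/-- `φ ∈ C₀^∞(Ω)`. -/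
def IsTest (Ω : Set E) (φ : E → ℝ) : Prop :=
  ContDiff ℝ ∞ φ ∧ HasCompactSupport φ ∧ tsupport φ ⊆ Ω

/-- The Sobolev space with zero boundary values: the closure in `L² × L²` of the pairs
`(φ, ∇φ)` with `φ ∈ C₀^∞(Ω)`. -/
def sobolev (μ : Measure E) (Ω : Set E) : Set (L2 ℝ μ × L2 E μ) :=
  closure {p | ∃ φ : E → ℝ, IsTest Ω φ ∧ p.1.fn =ᵐ[μ] φ ∧ p.2.fn =ᵐ[μ] gradient φ}

/-- The `L^q` norm. -/
noncomputable def lqNorm (μ : Measure E) (q : ℝ) (u : E → ℝ) : ℝ :=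
  (∫ x, |u x| ^ q ∂μ) ^ (1 / q)

/-- The Dirichlet integral. -/
noncomputable def dirichlet (μ : Measure E) (p : L2 ℝ μ × L2 E μ) : ℝ :=
  ∫ x, ‖p.2.fn x‖ ^ 2 ∂μ

/-- The unit `L^q` sphere of the Sobolev space. -/
def lqSphere (μ : Measure E) (Ω : Set E) (q : ℝ) : Set (L2 ℝ μ × L2 E μ) :=
  {p | p ∈ sobolev μ Ω ∧ lqNorm μ q p.1.fn = 1}

/-- The `q`-spectrum. -/
def spec (μ : Measure E) (Ω : Set E) (q : ℝ) : Set ℝ :=
  {lam | ∃ p ∈ sobolev μ Ω, p.1 ≠ 0 ∧ ∀ φ : E → ℝ, IsTest Ω φ →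
    ∫ x, inner ℝ (p.2.fn x) (gradient φ x) ∂μ =
      lam * lqNorm μ q p.1.fn ^ (2 - q) * ∫ x, |p.1.fn x| ^ (q - 2) * p.1.fn x * φ x ∂μ}

/-- The Krasnosel'skii genus: the least `k ≥ 1` such that there is a continuous odd map from `F`
to the unit sphere of `ℝ^k`, and `⊤` if there is none. -/
noncomputable def genus {X : Type} [TopologicalSpace X] [Neg X] (F : Set X) : ℕ∞ :=
  ⨅ (k : ℕ) (_ : 1 ≤ k) (_ : ∃ f : X → EuclideanSpace ℝ (Fin k),
    ContinuousOn f F ∧ (∀ p ∈ F, ‖f p‖ = 1) ∧ ∀ p ∈ F, f (-p) = -f p), (k : ℕ∞)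

/-- The `k`-th Lusternik-Schnirelman value: the infimum, over the nonempty compact symmetric
subsets `F` of the `L^q` sphere of genus at least `k`, of the maximum of the Dirichlet integral. -/
noncomputable def lamLS (μ : Measure E) (Ω : Set E) (q : ℝ) (k : ℕ) : EReal :=
  ⨅ (F : Set (L2 ℝ μ × L2 E μ)) (_ : F.Nonempty ∧ IsCompact F ∧ F ⊆ lqSphere μ Ω q ∧
    (∀ p ∈ F, -p ∈ F) ∧ (k : ℕ∞) ≤ genus F), ⨆ p ∈ F, (dirichlet μ p : EReal)

/-- The Lusternik-Schnirelman `q`-spectrum. -/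
def specLS (μ : Measure E) (Ω : Set E) (q : ℝ) : Set ℝ :=
  {lam | ∃ k : ℕ, 1 ≤ k ∧ (lam : EReal) = lamLS μ Ω q k}

end Pool.Agent.Lib.MP_eb4995_an
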