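import Mathlib
import Pool.Agent.Lib.MP_eb4995_an.Defs

/-!
Basic facts: test functions, the Sobolev space as a closed subspace, `L^q` norms.
-/

set_option linter.unusedSectionVars false

namespace Pool.Agent.Lib.MP_eb4995_an

open MeasureTheory Set Filter Topology Metric
open scoped ContDiff ENNReal NNReal

section Norms

variable {α : Type} [MeasurableSpace α] {μ : Measure α} {q : ℝ}

theorem lqNorm_nonneg (u : α → ℝ) : 0 ≤ lqNorm μ q u :=
  Real.rpow_nonneg (integral_nonneg fun _ => by positivity) _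

theorem lqNorm_congr {u v : α → ℝ} (h : u =ᵐ[μ] v) : lqNorm μ q u = lqNorm μ q v := by
  unfold lqNorm
  congr 1
  exact integral_congr_ae (h.mono fun x hx => by simp only [hx])

theorem lqNorm_rpow (hq : 0 < q) (u : α → ℝ) : lqNorm μ q u ^ q = ∫ x, |u x| ^ q ∂μ := by
  unfold lqNorm
  rw [← Real.rpow_mul (integral_nonneg fun _ => by positivity), one_div_mul_cancel hq.ne',
    Real.rpow_one]

theorem eLpNorm_eq_lqNorm (hq : 0 < q) {u : α → ℝ} (hu : MemLp u (ENNReal.ofReal q) μ) :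
    eLpNorm u (ENNReal.ofReal q) μ = ENNReal.ofReal (lqNorm μ q u) := by
  rw [hu.eLpNorm_eq_integral_rpow_norm (by simpa using hq) ENNReal.ofReal_ne_top,
    ENNReal.toReal_ofReal hq.le]
  simp [lqNorm]

theorem norm_eq_lqNorm (hq : 0 < q) (v : Lp ℝ (ENNReal.ofReal q) μ) :
    ‖v‖ = lqNorm μ q v := by
  rw [Lp.norm_def, eLpNorm_eq_lqNorm hq (Lp.memLp v), ENNReal.toReal_ofReal (lqNorm_nonneg _)]

theorem integrable_rpow (hq : 0 < q) {u : α → ℝ} (hu : MemLp u (ENNReal.ofReal q) μ) :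
    Integrable (fun x => |u x| ^ q) μ := by
  have := hu.integrable_norm_rpow (by simpa using hq) ENNReal.ofReal_ne_top
  simpa [ENNReal.toReal_ofReal hq.le] using this

theorem lqNorm_mono (hq : 0 < q) {u v : α → ℝ} (hv : MemLp v (ENNReal.ofReal q) μ)
    (h : ∀ᵐ x ∂μ, |u x| ≤ |v x|) : lqNorm μ q u ≤ lqNorm μ q v := by
  unfold lqNorm
  refine Real.rpow_le_rpow (integral_nonneg fun _ => by positivity) ?_ (by positivity)
  refine integral_mono_of_nonneg (Eventually.of_forall fun _ => by positivity)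
    (integrable_rpow hq hv) (h.mono fun x hx => ?_)
  exact Real.rpow_le_rpow (abs_nonneg _) hx hq.le

theorem lqNorm_smul (hq : 0 < q) (c : ℝ) (u : α → ℝ) :
    lqNorm μ q (fun x => c * u x) = |c| * lqNorm μ q u := by
  unfold lqNorm
  simp_rw [abs_mul, Real.mul_rpow (abs_nonneg _) (abs_nonneg _)]
  rw [integral_const_mul, Real.mul_rpow (by positivity) (integral_nonneg fun _ => by positivity),
    ← Real.rpow_mul (abs_nonneg _), mul_one_div_cancel hq.ne', Real.rpow_one]

theorem norm_sq_eq_integral {F : Type} [NormedAddCommGroup F] [InnerProductSpace ℝ F]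
    (g : Lp F 2 μ) : ‖g‖ ^ 2 = ∫ x, ‖g x‖ ^ 2 ∂μ := by
  rw [← real_inner_self_eq_norm_sq, L2.inner_def]
  simp_rw [real_inner_self_eq_norm_sq]

/-- A Carathéodory contraction. -/
structure IsContr (g : α → ℝ → ℝ) : Prop where
  meas : Measurable (Function.uncurry g)
  zero : ∀ x, g x 0 = 0
  lip : ∀ x s t, |g x s - g x t| ≤ |s - t|

theorem IsContr.abs_le {g : α → ℝ → ℝ} (hg : IsContr g) (x : α) (s : ℝ) : |g x s| ≤ |s| := by
  simpa [hg.zero] using hg.lip x s 0

theorem IsContr.memLp {g : α → ℝ → ℝ} (hg : IsContr g) {u : α → ℝ} {p : ℝ≥0∞}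
    (hu : MemLp u p μ) : MemLp (fun x => g x (u x)) p μ := by
  refine hu.of_le ?_ (Eventually.of_forall fun x => hg.abs_le x (u x))
  exact (hg.meas.comp_aemeasurable
    (aemeasurable_id.prodMk hu.1.aemeasurable)).aestronglyMeasurable

theorem IsContr.continuous {g : α → ℝ → ℝ} (hg : IsContr g) (hq : 0 < q)
    [Fact (1 ≤ ENNReal.ofReal q)] :
    Continuous fun v : Lp ℝ (ENNReal.ofReal q) μ => lqNorm μ q (fun x => g x (v x)) := by
  let T : Lp ℝ (ENNReal.ofReal q) μ → Lp ℝ (ENNReal.ofReal q) μ :=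
    fun v => (hg.memLp (Lp.memLp v)).toLp _
  have hT : ∀ v, T v =ᵐ[μ] fun x => g x (v x) := fun v => MemLp.coeFn_toLp _
  have hL : LipschitzWith 1 T := by
    refine LipschitzWith.of_dist_le_mul fun v w => ?_
    rw [dist_eq_norm, dist_eq_norm, NNReal.coe_one, one_mul]
    refine Lp.norm_le_norm_of_ae_le ?_
    filter_upwards [Lp.coeFn_sub (T v) (T w), Lp.coeFn_sub v w, hT v, hT w] with x h1 h2 h3 h4
    rw [h1, h2, Pi.sub_apply, Pi.sub_apply, h3, h4]
    exact hg.lip x _ _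
  have : (fun v : Lp ℝ (ENNReal.ofReal q) μ => lqNorm μ q (fun x => g x (v x))) =
      fun v => ‖T v‖ := by
    funext v
    rw [norm_eq_lqNorm hq, lqNorm_congr (hT v)]
  rw [this]
  exact hL.continuous.norm

theorem isContr_indicator {A : Set α} (hA : MeasurableSet A) :
    IsContr fun x s => A.indicator (fun _ => s) x := by
  refine ⟨?_, fun x => by simp, fun x s t => ?_⟩
  · have : (Function.uncurry fun (x : α) (s : ℝ) => A.indicator (fun _ => s) x) =
        (Prod.fst ⁻¹' A).indicator Prod.snd := by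
      funext ⟨x, s⟩
      by_cases hx : x ∈ A <;> simp [hx]
    rw [this]
    exact measurable_snd.indicator (measurable_fst hA)
  · by_cases hx : x ∈ A <;> simp [hx]

theorem isContr_pos : IsContr fun (_ : α) (s : ℝ) => max s 0 :=
  ⟨measurable_snd.max measurable_const, fun _ => by simp, fun _ s t => abs_max_sub_max_le_abs s t 0⟩

theorem isContr_neg : IsContr fun (_ : α) (s : ℝ) => max (-s) 0 :=
  ⟨measurable_snd.neg.max measurable_const, fun _ => by simp, fun _ s t => by
    refine (abs_max_sub_max_le_abs (-s) (-t) 0).trans_eq ?_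
    rw [← abs_neg]; congr 1; ring⟩

/-- The basic inequality between powers. -/
theorem rpow_le_add {a b c K t : ℝ} (hK : 0 < K) (ht : 0 ≤ t) (ha : 0 ≤ a) (hab : a ≤ b)
    (hbc : b ≤ c) : t ^ b ≤ K ^ (b - a) * t ^ a + K ^ (b - c) * t ^ c := by
  have h1 : 0 ≤ K ^ (b - a) * t ^ a := by positivity
  have h2 : 0 ≤ K ^ (b - c) * t ^ c := by positivity
  rcases ht.eq_or_lt with rfl | ht
  · rcases ha.eq_or_lt with rfl | ha
    · rcases hab.eq_or_lt with rfl | hb
      · simp only [sub_self, Real.rpow_zero, mul_one] at h2 ⊢; linarith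
      · rw [Real.zero_rpow hb.ne']; linarith
    · rw [Real.zero_rpow (ha.trans_le hab).ne']; linarith
  rcases le_total t K with h | h
  · have : t ^ b = t ^ (b - a) * t ^ a := by rw [← Real.rpow_add ht]; ring_nf
    rw [this]
    have : t ^ (b - a) ≤ K ^ (b - a) := Real.rpow_le_rpow ht.le h (by linarith)
    nlinarith [Real.rpow_nonneg ht.le a]
  · have : t ^ b = t ^ (b - c) * t ^ c := by rw [← Real.rpow_add ht]; ring_nf
    rw [this]
    have : t ^ (b - c) ≤ K ^ (b - c) := Real.rpow_le_rpow_of_nonpos hK h (by linarith)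
    nlinarith [Real.rpow_nonneg ht.le c]

end Norms

variable {E : Type} [NormedAddCommGroup E] [InnerProductSpace ℝ E]

section Test

variable {Ω Ω' : Set E} {φ ψ : E → ℝ}

theorem IsTest.mono (h : IsTest Ω φ) (hΩ : Ω ⊆ Ω') : IsTest Ω' φ :=
  ⟨h.1, h.2.1, h.2.2.trans hΩ⟩

theorem IsTest.continuous (h : IsTest Ω φ) : Continuous φ := h.1.continuous

theorem IsTest.contDiff_one (h : IsTest Ω φ) : ContDiff ℝ 1 φ := h.1.of_le (by simp)

theorem IsTest.differentiable (h : IsTest Ω φ) : Differentiable ℝ φ :=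
  h.contDiff_one.differentiable one_ne_zero

theorem IsTest.eq_zero (h : IsTest Ω φ) {x : E} (hx : x ∉ Ω) : φ x = 0 :=
  image_eq_zero_of_notMem_tsupport fun H => hx (h.2.2 H)

theorem isTest_zero : IsTest Ω (fun _ => (0 : ℝ)) :=
  ⟨contDiff_const, HasCompactSupport.zero, by simp⟩

theorem IsTest.add (h : IsTest Ω φ) (h' : IsTest Ω ψ) : IsTest Ω (fun x => φ x + ψ x) :=
  ⟨h.1.add h'.1, h.2.1.add h'.2.1,
    (tsupport_add φ ψ).trans (union_subset h.2.2 h'.2.2)⟩

theorem IsTest.mul_left (h : IsTest Ω φ) {η : E → ℝ} (hη : ContDiff ℝ ∞ η) :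
    IsTest Ω (fun x => η x * φ x) :=
  ⟨hη.mul h.1, h.2.1.mul_left, (tsupport_mul_subset_right).trans h.2.2⟩

theorem IsTest.smul (h : IsTest Ω φ) (c : ℝ) : IsTest Ω (fun x => c * φ x) :=
  h.mul_left contDiff_const

theorem IsTest.comp_left (h : IsTest Ω φ) {f : ℝ → ℝ} (hf : ContDiff ℝ ∞ f) (h0 : f 0 = 0) :
    IsTest Ω (fun x => f (φ x)) :=
  ⟨hf.comp h.1, h.2.1.comp_left h0, (tsupport_comp_subset h0 φ).trans h.2.2⟩

theorem IsTest.continuous_fderiv (h : IsTest Ω φ) : Continuous (fderiv ℝ φ) :=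
  h.contDiff_one.continuous_fderiv one_ne_zero

variable [CompleteSpace E]

theorem norm_gradient (φ : E → ℝ) (x : E) : ‖gradient φ x‖ = ‖fderiv ℝ φ x‖ :=
  LinearIsometryEquiv.norm_map _ _

theorem IsTest.continuous_gradient (h : IsTest Ω φ) : Continuous (gradient φ) :=
  (InnerProductSpace.toDual ℝ E).symm.continuous.comp h.continuous_fderiv

theorem IsTest.hasCompactSupport_gradient (h : IsTest Ω φ) : HasCompactSupport (gradient φ) :=
  (h.2.1.fderiv ℝ).comp_left (g := (InnerProductSpace.toDual ℝ E).symm) (map_zero _)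

theorem gradient_add' (h : Differentiable ℝ φ) (h' : Differentiable ℝ ψ) (x : E) :
    gradient (fun x => φ x + ψ x) x = gradient φ x + gradient ψ x := by
  simp only [gradient]
  rw [fderiv_fun_add (h x) (h' x), map_add]

theorem gradient_mul' (h : Differentiable ℝ φ) (h' : Differentiable ℝ ψ) (x : E) :
    gradient (fun x => φ x * ψ x) x = φ x • gradient ψ x + ψ x • gradient φ x := by
  simp only [gradient]
  rw [fderiv_fun_mul (h x) (h' x), map_add, map_smul, map_smul]

theorem gradient_const_mul' (h : Differentiable ℝ φ) (c : ℝ) (x : E) :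
    gradient (fun x => c * φ x) x = c • gradient φ x := by
  simp only [gradient]
  rw [fderiv_const_mul (h x), map_smul]

theorem gradient_comp' (h : Differentiable ℝ φ) {f : ℝ → ℝ} (hf : Differentiable ℝ f) (x : E) :
    gradient (fun x => f (φ x)) x = deriv f (φ x) • gradient φ x := by
  simp only [gradient]
  have := ((hf (φ x)).hasDerivAt.comp_hasFDerivAt x (h x).hasFDerivAt).fderiv
  rw [show (fun x => f (φ x)) = f ∘ φ from rfl, this, map_smul]

end Test

variable [CompleteSpace E] [MeasurableSpace E] [BorelSpace E]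

/-- The ambient space. -/
abbrev V (μ : Measure E) : Type := Lp ℝ 2 μ × Lp E 2 μ

/-- The Dirichlet integral of a function. -/
noncomputable def dir (μ : Measure E) (φ : E → ℝ) : ℝ := ∫ x, ‖gradient φ x‖ ^ 2 ∂μ

theorem dir_nonneg (μ : Measure E) (φ : E → ℝ) : 0 ≤ dir μ φ :=
  integral_nonneg fun _ => by positivity

/-- `p` is the pair of the function `φ`. -/
def Rep {μ : Measure E} (p : V μ) (φ : E → ℝ) : Prop := p.1 =ᵐ[μ] φ ∧ p.2 =ᵐ[μ] gradient φ

/-- The pairs of test functions. -/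
def graph (μ : Measure E) (Ω : Set E) : Submodule ℝ (V μ) where
  carrier := {p | ∃ φ : E → ℝ, IsTest Ω φ ∧ Rep p φ}
  zero_mem' := ⟨fun _ => 0, isTest_zero, Lp.coeFn_zero _ _ _, by
    rw [gradient_fun_const']; exact Lp.coeFn_zero _ _ _⟩
  add_mem' := by
    rintro p p' ⟨φ, hφ, h1, h2⟩ ⟨ψ, hψ, h3, h4⟩
    refine ⟨_, hφ.add hψ, ?_, ?_⟩
    · filter_upwards [Lp.coeFn_add p.1 p'.1, h1, h3] with x e1 e2 e3
      rw [Prod.fst_add, e1, Pi.add_apply, e2, e3]
    · filter_upwards [Lp.coeFn_add p.2 p'.2, h2, h4] with x e1 e2 e3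
      rw [Prod.snd_add, e1, Pi.add_apply, e2, e3,
        gradient_add' hφ.differentiable hψ.differentiable]
  smul_mem' := by
    rintro c p ⟨φ, hφ, h1, h2⟩
    refine ⟨_, hφ.smul c, ?_, ?_⟩
    · filter_upwards [Lp.coeFn_smul c p.1, h1] with x e1 e2
      rw [Prod.smul_fst, e1, Pi.smul_apply, e2, smul_eq_mul]
    · filter_upwards [Lp.coeFn_smul c p.2, h2] with x e1 e2
      rw [Prod.smul_snd, e1, Pi.smul_apply, e2, gradient_const_mul' hφ.differentiable]

/-- The Sobolev space as a closed subspace. -/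
noncomputable def W (μ : Measure E) (Ω : Set E) : Submodule ℝ (V μ) :=
  (graph μ Ω).topologicalClosure

variable {μ : Measure E} {Ω Ω' : Set E} {φ : E → ℝ}

theorem mem_W {p : V μ} : p ∈ W μ Ω ↔ p ∈ closure (graph μ Ω : Set (V μ)) := Iff.rfl

theorem mem_sobolev {p : V μ} : p ∈ sobolev μ Ω ↔ p ∈ W μ Ω := Iff.rfl

theorem dirichlet_eq (p : V μ) : dirichlet μ p = ‖p.2‖ ^ 2 := (norm_sq_eq_integral p.2).symm

instance : CompleteSpace (W μ Ω) :=
  (Submodule.isClosed_topologicalClosure (graph μ Ω)).completeSpace_coe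

theorem graph_le_W : graph μ Ω ≤ W μ Ω := Submodule.le_topologicalClosure _

theorem W_mono (h : Ω ⊆ Ω') : W μ Ω ≤ W μ Ω' :=
  Submodule.topologicalClosure_mono fun _ ⟨φ, hφ, hp⟩ => ⟨φ, hφ.mono h, hp⟩

theorem Rep.norm_sq {p : V μ} (h : Rep p φ) : ‖p.2‖ ^ 2 = dir μ φ := by
  rw [norm_sq_eq_integral]
  exact integral_congr_ae (h.2.mono fun x hx => by simp only [hx])

theorem dense_graph : Dense {p : W μ Ω | (p : V μ) ∈ graph μ Ω} := by
  rw [Subtype.dense_iff]
  intro p hp
  refine closure_mono ?_ (mem_W.1 hp)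
  intro p hp
  exact ⟨⟨p, graph_le_W hp⟩, hp, rfl⟩

/-- Closed properties pass from test functions to the Sobolev space. -/
theorem W_induction {P : W μ Ω → Prop} (hP : IsClosed {p | P p})
    (h : ∀ (p : W μ Ω) (φ : E → ℝ), IsTest Ω φ → Rep (p : V μ) φ → P p) (p : W μ Ω) : P p :=
  dense_graph.induction (fun p ⟨φ, hφ, hp⟩ => h p φ hφ hp) hP p

variable [IsFiniteMeasureOnCompacts μ]

theorem IsTest.memLp (h : IsTest Ω φ) (p : ℝ≥0∞) : MemLp φ p μ :=
  h.continuous.memLp_of_hasCompactSupport h.2.1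

theorem IsTest.memLp_gradient (h : IsTest Ω φ) (p : ℝ≥0∞) : MemLp (gradient φ) p μ :=
  h.continuous_gradient.memLp_of_hasCompactSupport h.hasCompactSupport_gradient

theorem IsTest.exists_rep (μ : Measure E) [IsFiniteMeasureOnCompacts μ] (h : IsTest Ω φ) :
    ∃ p : W μ Ω, Rep (p : V μ) φ := by
  have hr : Rep ((h.memLp 2).toLp φ, (h.memLp_gradient (μ := μ) 2).toLp _) φ :=
    ⟨(h.memLp 2).coeFn_toLp, (h.memLp_gradient 2).coeFn_toLp⟩
  exact ⟨⟨_, graph_le_W ⟨φ, h, hr⟩⟩, hr⟩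

theorem IsTest.integrable_sq_gradient (h : IsTest Ω φ) :
    Integrable (fun x => ‖gradient φ x‖ ^ 2) μ :=
  (h.memLp_gradient 2).integrable_norm_pow two_ne_zero

end Pool.Agent.Lib.MP_eb4995_an
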