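import Mathlib
import Pool.Agent.Lib.MP_eb4995_an.Basic

/-!
The Sobolev inequality on bounded sets and the embedding in `L^q`.
-/

set_option linter.unusedSectionVars false

namespace Pool.Agent.Lib.MP_eb4995_an

open MeasureTheory Set Filter Topology Metric Module
open scoped ContDiff ENNReal NNReal

variable {E : Type} [NormedAddCommGroup E] [InnerProductSpace ℝ E] [CompleteSpace E]
  [MeasurableSpace E] [BorelSpace E] [FiniteDimensional ℝ E]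
  {μ : Measure E} [μ.IsAddHaarMeasure] {Ω : Set E} {φ : E → ℝ}

theorem IsTest.support_gradient (h : IsTest Ω φ) : Function.support (gradient φ) ⊆ Ω := by
  intro x hx
  refine h.2.2 (support_fderiv_subset ℝ ?_)
  intro h0
  exact hx (by rw [← norm_eq_zero, norm_gradient, h0, norm_zero])

theorem eLpNorm_gradient_le (hΩ : Bornology.IsBounded Ω) {p : ℝ≥0∞} (hp : p ≤ 2) :
    ∃ C : ℝ≥0, ∀ φ : E → ℝ, IsTest Ω φ →
      eLpNorm (gradient φ) p μ ≤ C * eLpNorm (gradient φ) 2 μ := by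
  by_cases hp0 : p = 0
  · exact ⟨0, fun φ _ => by simp [hp0]⟩
  have hfin : μ Ω ^ (1 / p.toReal - 1 / (2 : ℝ≥0∞).toReal) ≠ ⊤ := by
    refine ENNReal.rpow_ne_top_of_nonneg ?_ hΩ.measure_lt_top.ne
    have h1 : p.toReal ≤ (2 : ℝ≥0∞).toReal := ENNReal.toReal_mono (by simp) hp
    have h2 : 0 < p.toReal := ENNReal.toReal_pos hp0 (ne_top_of_le_ne_top (by simp) hp)
    exact sub_nonneg.2 (one_div_le_one_div_of_le h2 h1)
  refine ⟨(μ Ω ^ (1 / p.toReal - 1 / (2 : ℝ≥0∞).toReal)).toNNReal, fun φ hφ => ?_⟩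
  rw [ENNReal.coe_toNNReal hfin, ← eLpNorm_restrict_eq_of_support_subset hφ.support_gradient,
    ← eLpNorm_restrict_eq_of_support_subset (p := 2) hφ.support_gradient, mul_comm]
  have := eLpNorm_le_eLpNorm_mul_rpow_measure_univ (μ := μ.restrict Ω) hp
    hφ.continuous_gradient.aestronglyMeasurable
  rwa [Measure.restrict_apply_univ] at this

theorem sobolev_test (hΩ : Bornology.IsBounded Ω) (hN : 2 ≤ finrank ℝ E) {r : ℝ} (hr : 2 ≤ r)
    (hr' : ((finrank ℝ E : ℝ) - 2) * r < 2 * finrank ℝ E) :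
    ∃ C : ℝ≥0, ∀ φ : E → ℝ, IsTest Ω φ →
      eLpNorm φ (ENNReal.ofReal r) μ ≤ C * eLpNorm (gradient φ) 2 μ := by
  set N : ℝ := (finrank ℝ E : ℝ) with hNdef
  have hN' : 2 ≤ N := by rw [hNdef]; exact_mod_cast hN
  have hr0 : 0 < r := by linarith
  have hN0 : 0 < N := by linarith
  have hs : 0 < r⁻¹ + N⁻¹ := by positivity
  have h1 : r⁻¹ + N⁻¹ ≤ 1 := by
    have a : r⁻¹ ≤ 2⁻¹ := inv_anti₀ two_pos hr
    have b : N⁻¹ ≤ 2⁻¹ := inv_anti₀ two_pos hN'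
    linarith
  have h2 : 2⁻¹ < r⁻¹ + N⁻¹ := by
    rw [inv_add_inv hr0.ne' hN0.ne', lt_div_iff₀ (by positivity)]
    nlinarith
  let p : ℝ≥0 := ⟨(r⁻¹ + N⁻¹)⁻¹, by positivity⟩
  have hp1 : 1 ≤ p := by
    change (1 : ℝ) ≤ (r⁻¹ + N⁻¹)⁻¹
    exact (one_le_inv₀ hs).2 h1
  have hp2 : (p : ℝ) < 2 := by
    change (r⁻¹ + N⁻¹)⁻¹ < 2
    rwa [inv_lt_comm₀ hs two_pos]
  have hpN : p < finrank ℝ E := by
    have : (p : ℝ) < (finrank ℝ E : ℝ) := hp2.trans_le hN'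
    exact_mod_cast this
  obtain ⟨C, hC⟩ := eLpNorm_gradient_le (μ := μ) hΩ (p := p) (by
    have : p ≤ 2 := by exact_mod_cast hp2.le
    exact_mod_cast this)
  refine ⟨eLpNormLESNormFDerivOfLeConst ℝ μ Ω p r.toNNReal * C, fun φ hφ => ?_⟩
  have h3 := eLpNorm_le_eLpNorm_fderiv_of_le (μ := μ) hφ.contDiff_one
    ((subset_tsupport φ).trans hφ.2.2) (p := p) (q := r.toNNReal) hp1 hpN (by
      rw [Real.coe_toNNReal _ hr0.le, NNReal.coe_inv]
      change ((r⁻¹ + N⁻¹)⁻¹)⁻¹ - N⁻¹ ≤ r⁻¹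
      rw [inv_inv]; linarith) hΩ
  have h4 : eLpNorm (fderiv ℝ φ) p μ = eLpNorm (gradient φ) p μ :=
    eLpNorm_congr_norm_ae (Eventually.of_forall fun x => (norm_gradient φ x).symm)
  rw [h4] at h3
  refine h3.trans ?_
  rw [ENNReal.coe_mul, mul_assoc]
  gcongr
  exact hC φ hφ

theorem sobolev_W (hΩ : Bornology.IsBounded Ω) (hN : 2 ≤ finrank ℝ E) {r : ℝ} (hr : 2 ≤ r)
    (hr' : ((finrank ℝ E : ℝ) - 2) * r < 2 * finrank ℝ E) :
    ∃ C : ℝ, 0 < C ∧ ∀ p ∈ W μ Ω,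
      MemLp p.1 (ENNReal.ofReal r) μ ∧ lqNorm μ r p.1 ≤ C * ‖p.2‖ := by
  obtain ⟨C, hC⟩ := sobolev_test (μ := μ) hΩ hN hr hr'
  have key : ∀ p ∈ W μ Ω, eLpNorm p.1 (ENNReal.ofReal r) μ ≤ C * ‖p.2‖ₑ := by
    intro p hp
    obtain ⟨x, hx, hlim⟩ := mem_closure_iff_seq_limit.1 (mem_W.1 hp)
    have h1 : Tendsto (fun n => (x n).1) atTop (𝓝 p.1) := (continuous_fst.tendsto p).comp hlim
    have h2 : Tendsto (fun n => (x n).2) atTop (𝓝 p.2) := (continuous_snd.tendsto p).comp hlim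
    have h3 : Tendsto (fun n => (C : ℝ≥0∞) * ‖(x n).2‖ₑ) atTop (𝓝 (C * ‖p.2‖ₑ)) :=
      ENNReal.Tendsto.const_mul h2.enorm (Or.inr ENNReal.coe_ne_top)
    refine le_of_forall_gt_imp_ge_of_dense fun b hb => ?_
    refine eLpNorm_le_of_tendstoInMeasure ?_ (tendstoInMeasure_of_tendsto_Lp h1)
      (fun n => Lp.aestronglyMeasurable _)
    filter_upwards [h3.eventually (gt_mem_nhds hb)] with n hn
    obtain ⟨φ, hφ, h4, h5⟩ := hx n
    refine le_trans ?_ hn.le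
    rw [eLpNorm_congr_ae h4, Lp.enorm_def, eLpNorm_congr_ae h5]
    exact hC φ hφ
  refine ⟨C + 1, by positivity, fun p hp => ?_⟩
  have hm : MemLp p.1 (ENNReal.ofReal r) μ :=
    ⟨Lp.aestronglyMeasurable _, (key p hp).trans_lt (ENNReal.mul_lt_top (by simp) (by simp))⟩
  refine ⟨hm, ?_⟩
  have h := key p hp
  rw [eLpNorm_eq_lqNorm (by linarith) hm, ← ofReal_norm, ← ENNReal.ofReal_coe_nnreal,
    ← ENNReal.ofReal_mul (by positivity), ENNReal.ofReal_le_ofReal_iff (by positivity)] at h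
  nlinarith [norm_nonneg p.2]

theorem poincare_W (hΩ : Bornology.IsBounded Ω) (hN : 2 ≤ finrank ℝ E) :
    ∃ C : ℝ, 0 < C ∧ ∀ p : W μ Ω, ‖p‖ ≤ C * ‖(p : V μ).2‖ := by
  obtain ⟨C, hC0, hC⟩ := sobolev_W (μ := μ) hΩ hN (r := 2) le_rfl (by linarith)
  refine ⟨C + 1, by positivity, fun p => ?_⟩
  have h1 : ‖(p : V μ).1‖ = lqNorm μ 2 (p : V μ).1 := by
    have h2 := lqNorm_rpow (μ := μ) two_pos (p : V μ).1
    simp only [Real.rpow_ofNat] at h2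
    refine (pow_left_inj₀ (norm_nonneg _) (lqNorm_nonneg _) two_ne_zero).1 ?_
    rw [h2, norm_sq_eq_integral]
    simp only [Real.norm_eq_abs]
  have h3 := (hC p p.2).2
  have h4 := norm_nonneg (p : V μ).2
  change ‖(p : V μ)‖ ≤ _
  rw [Prod.norm_def]
  refine max_le ?_ ?_ <;> nlinarith

theorem exists_embedding (hΩ : Bornology.IsBounded Ω) (hN : 2 ≤ finrank ℝ E) {q : ℝ} (hq : 2 ≤ q)
    (hq' : ((finrank ℝ E : ℝ) - 2) * q < 2 * finrank ℝ E) [Fact (1 ≤ ENNReal.ofReal q)] :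
    ∃ J : W μ Ω →L[ℝ] Lp ℝ (ENNReal.ofReal q) μ, ∀ p, J p =ᵐ[μ] (p : V μ).1 := by
  obtain ⟨C, hC0, hC⟩ := sobolev_W (μ := μ) hΩ hN hq hq'
  let T : W μ Ω → Lp ℝ (ENNReal.ofReal q) μ := fun p => (hC p p.2).1.toLp _
  have hT : ∀ p, T p =ᵐ[μ] (p : V μ).1 := fun p => MemLp.coeFn_toLp _
  let L : W μ Ω →ₗ[ℝ] Lp ℝ (ENNReal.ofReal q) μ :=
    { toFun := T
      map_add' := fun p p' => Lp.ext (by
        filter_upwards [hT (p + p'), hT p, hT p', Lp.coeFn_add (T p) (T p'),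
          Lp.coeFn_add (p : V μ).1 (p' : V μ).1] with x e1 e2 e3 e4 e5
        rw [e1, e4, Pi.add_apply, e2, e3, Submodule.coe_add, Prod.fst_add, e5, Pi.add_apply])
      map_smul' := fun c p => Lp.ext (by
        filter_upwards [hT (c • p), hT p, Lp.coeFn_smul c (T p),
          Lp.coeFn_smul c (p : V μ).1] with x e1 e2 e3 e4
        rw [e1, RingHom.id_apply, e3, Pi.smul_apply, e2, Submodule.coe_smul, Prod.smul_fst, e4,
          Pi.smul_apply]) }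
  refine ⟨L.mkContinuous C fun p => ?_, hT⟩
  change ‖T p‖ ≤ C * ‖(p : V μ)‖
  rw [norm_eq_lqNorm (by linarith), lqNorm_congr (hT p)]
  refine (hC p p.2).2.trans ?_
  gcongr
  exact norm_snd_le _

end Pool.Agent.Lib.MP_eb4995_an
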