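import Mathlib
import Pool.Agent.Lib.MP_eb4995_an.Sobolev

/-!
The Rellich-Kondrachov compactness theorem for the Sobolev space with zero boundary values.
-/

set_option linter.unusedSectionVars false

namespace Pool.Agent.Lib.MP_eb4995_an

open MeasureTheory Set Filter Topology Metric Module
open scoped ContDiff ENNReal NNReal

theorem totallyBounded_of_approx {α X : Type} [PseudoMetricSpace X] (f : α → X)
    (h : ∀ η > (0 : ℝ), ∃ (Y : Type) (_ : PseudoMetricSpace Y) (a : α → Y),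
      TotallyBounded (range a) ∧ ∃ κ > (0 : ℝ), ∀ p p', dist (a p) (a p') < κ →
        dist (f p) (f p') < η) : TotallyBounded (range f) := by
  refine Metric.totallyBounded_iff.2 fun η hη => ?_
  obtain ⟨Y, _, a, ha, κ, hκ, H⟩ := h η hη
  obtain ⟨t, hts, ht, hcov⟩ := Metric.finite_approx_of_totallyBounded ha κ hκ
  rcases isEmpty_or_nonempty α with hα | hα
  · exact ⟨∅, finite_empty, by rw [range_eq_empty]; exact empty_subset _⟩
  choose! g hg using fun y (hy : y ∈ t) => hts hy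
  refine ⟨(f ∘ g) '' t, ht.image _, ?_⟩
  rintro _ ⟨p, rfl⟩
  obtain ⟨y, hy, hpy⟩ := mem_iUnion₂.1 (hcov ⟨p, rfl⟩)
  refine mem_iUnion₂.2 ⟨_, ⟨y, hy, rfl⟩, H p (g y) ?_⟩
  rw [hg y hy]; exact hpy

variable {E : Type} [NormedAddCommGroup E] [InnerProductSpace ℝ E] [CompleteSpace E]
  [MeasurableSpace E] [BorelSpace E] [FiniteDimensional ℝ E]
  {μ : Measure E} [μ.IsAddHaarMeasure] {Ω : Set E} {φ : E → ℝ}

theorem lintegral_translate_le (hφ : ContDiff ℝ 1 φ) (z : E) :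
    ∫⁻ x, ‖φ (x + z) - φ x‖ₑ ∂μ ≤ ‖z‖ₑ * ∫⁻ x, ‖fderiv ℝ φ x‖ₑ ∂μ := by
  have hd : Differentiable ℝ φ := hφ.differentiable one_ne_zero
  have hc : Continuous (fderiv ℝ φ) := hφ.continuous_fderiv one_ne_zero
  have h1 : ∀ x, ‖φ (x + z) - φ x‖ₑ ≤
      ∫⁻ t in Icc (0 : ℝ) 1, ‖z‖ₑ * ‖fderiv ℝ φ (x + t • z)‖ₑ := by
    intro x
    have h2 : ContDiff ℝ 1 fun t : ℝ => φ (x + t • z) := hφ.comp (by fun_prop)
    have h3 := enorm_sub_le_lintegral_deriv_of_contDiffOn_Icc h2.contDiffOn (zero_le_one' ℝ)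
    simp only [one_smul, zero_smul, add_zero] at h3
    refine h3.trans (lintegral_mono fun t => ?_)
    have h4 : HasDerivAt (fun t : ℝ => x + t • z) z t := by
      simpa using ((hasDerivAt_id t).smul_const z).const_add x
    have h5 : deriv (fun t : ℝ => φ (x + t • z)) t = fderiv ℝ φ (x + t • z) z :=
      ((hd (x + t • z)).hasFDerivAt.comp_hasDerivAt t h4).deriv
    rw [h5, mul_comm]
    exact ContinuousLinearMap.le_opENorm _ _
  refine (lintegral_mono h1).trans ?_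
  rw [lintegral_lintegral_swap]
  · have : ∀ t : ℝ, ∫⁻ x, ‖z‖ₑ * ‖fderiv ℝ φ (x + t • z)‖ₑ ∂μ =
        ‖z‖ₑ * ∫⁻ x, ‖fderiv ℝ φ x‖ₑ ∂μ := fun t => by
      rw [lintegral_const_mul' _ _ enorm_ne_top,
        lintegral_add_right_eq_self (fun x => ‖fderiv ℝ φ x‖ₑ)]
    simp only [this]
    simp
  · refine Measurable.aemeasurable (Measurable.const_mul ?_ _)
    exact (hc.comp (f := fun p : E × ℝ => p.1 + p.2 • z) (by fun_prop)).enorm.measurable

theorem pointwise_le (hφ : Continuous φ) {c x : E} {δ : ℝ} (hx : dist x c < δ) :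
    μ (ball 0 δ) * ‖φ x‖ₑ ≤ ‖∫ y in ball c δ, φ y ∂μ‖ₑ +
      ∫⁻ z in ball (0 : E) (2 * δ), ‖φ (x + z) - φ x‖ₑ ∂μ := by
  have hint : IntegrableOn φ (ball c δ) μ :=
    (hφ.continuousOn.integrableOn_compact (isCompact_closedBall c δ)).mono_set
      ball_subset_closedBall
  have hconst : IntegrableOn (fun _ => φ x) (ball c δ) μ :=
    integrableOn_const measure_ball_lt_top.ne
  have h1 : μ.real (ball c δ) * φ x =
      ∫ y in ball c δ, φ y ∂μ - ∫ y in ball c δ, (φ y - φ x) ∂μ := by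
    rw [integral_sub hint hconst]; simp
  have h2 : μ (ball 0 δ) * ‖φ x‖ₑ = ‖μ.real (ball c δ) * φ x‖ₑ := by
    rw [enorm_mul, Real.enorm_of_nonneg measureReal_nonneg,
      ofReal_measureReal measure_ball_lt_top.ne, Measure.addHaar_ball_center μ c]
  rw [h2, h1]
  refine (enorm_sub_le).trans (add_le_add le_rfl ?_)
  refine (enorm_integral_le_lintegral_enorm _).trans ?_
  have h3 : ball c δ ⊆ ball x (2 * δ) := fun y hy => by
    rw [mem_ball] at hy ⊢
    linarith [dist_triangle_right y x c]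
  refine (lintegral_mono_set h3).trans_eq ?_
  have h4 := (measurePreserving_add_left μ x).setLIntegral_comp_preimage
    (s := ball x (2 * δ)) measurableSet_ball (f := fun y => ‖φ y - φ x‖ₑ)
    (hφ.sub continuous_const).enorm.measurable
  rw [← h4]
  congr 2
  ext z
  simp [mem_ball, dist_eq_norm]

theorem l1_estimate (hφ : IsTest Ω φ) (hΩ : MeasurableSet Ω) {T : Set E} {δ : ℝ}
    (hT : Ω ⊆ ⋃ c ∈ T, ball c δ) {M : ℝ≥0∞} (hM : ∀ c ∈ T, ‖∫ y in ball c δ, φ y ∂μ‖ₑ ≤ M) :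
    μ (ball 0 δ) * ∫⁻ x, ‖φ x‖ₑ ∂μ ≤ M * μ Ω + ENNReal.ofReal (2 * δ) *
      (∫⁻ x, ‖fderiv ℝ φ x‖ₑ ∂μ) * (ENNReal.ofReal (2 ^ finrank ℝ E) * μ (ball 0 δ)) := by
  have h0 : ∫⁻ x, ‖φ x‖ₑ ∂μ = ∫⁻ x in Ω, ‖φ x‖ₑ ∂μ := by
    refine (setLIntegral_eq_of_support_subset ?_).symm
    intro x hx
    by_contra h
    exact hx (by simp [hφ.eq_zero h])
  rw [h0, ← lintegral_const_mul' _ _ measure_ball_lt_top.ne]
  have h1 : ∀ x ∈ Ω, μ (ball 0 δ) * ‖φ x‖ₑ ≤
      M + ∫⁻ z in ball (0 : E) (2 * δ), ‖φ (x + z) - φ x‖ₑ ∂μ := by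
    intro x hx
    obtain ⟨c, hc, hxc⟩ := mem_iUnion₂.1 (hT hx)
    exact (pointwise_le hφ.continuous hxc).trans (add_le_add (hM c hc) le_rfl)
  refine (setLIntegral_mono' hΩ h1).trans ?_
  rw [lintegral_add_left measurable_const, setLIntegral_const]
  refine add_le_add le_rfl ((setLIntegral_le_lintegral _ _).trans ?_)
  rw [lintegral_lintegral_swap]
  · have h2 : ∀ z ∈ ball (0 : E) (2 * δ), ∫⁻ x, ‖φ (x + z) - φ x‖ₑ ∂μ ≤
        ENNReal.ofReal (2 * δ) * ∫⁻ x, ‖fderiv ℝ φ x‖ₑ ∂μ := by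
      intro z hz
      refine (lintegral_translate_le hφ.contDiff_one z).trans ?_
      gcongr
      rw [← ofReal_norm]
      exact ENNReal.ofReal_le_ofReal (mem_ball_zero_iff.1 hz).le
    refine (setLIntegral_mono' measurableSet_ball h2).trans_eq ?_
    rw [setLIntegral_const, Measure.addHaar_ball_mul_of_pos μ 0 two_pos]
  · have := hφ.continuous
    exact (show Continuous fun p : E × E => φ (p.1 + p.2) - φ p.1 by
      fun_prop).enorm.measurable.aemeasurable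

theorem l1_small (hΩ : Bornology.IsBounded Ω) (hΩm : MeasurableSet Ω) (R : ℝ) {η : ℝ}
    (hη : 0 < η) :
    ∃ (T : Set E) (δ κ : ℝ), T.Finite ∧ 0 < κ ∧ ∀ (p : V μ) (φ : E → ℝ), IsTest Ω φ → Rep p φ →
      ‖p.2‖ ≤ R → (∀ c ∈ T, |∫ y in ball c δ, φ y ∂μ| ≤ κ) → ∫ x, |φ x| ∂μ ≤ η := by
  obtain ⟨C, hC⟩ := eLpNorm_gradient_le (μ := μ) hΩ (p := 1) (by simp)
  set A : ℝ := 2 * (C * |R|) * 2 ^ finrank ℝ E + 1 with hA
  have hA0 : 0 < A := by positivity
  set δ : ℝ := η / 2 / A with hδ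
  have hδ0 : 0 < δ := by positivity
  obtain ⟨T, -, hT, hcov⟩ := finite_cover_balls_of_compact hΩ.isCompact_closure hδ0
  set b : ℝ := μ.real (ball 0 δ) with hb
  have hb0 : 0 < b :=
    ENNReal.toReal_pos (measure_ball_pos μ 0 hδ0).ne' measure_ball_lt_top.ne
  set w : ℝ := μ.real Ω with hw
  have hw0 : 0 ≤ w := measureReal_nonneg
  refine ⟨T, δ, η / 2 * b / (w + 1), hT, by positivity, fun p φ hφ hp hR hκ => ?_⟩
  have h1 := l1_estimate (μ := μ) hφ hΩm (subset_closure.trans hcov)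
    (M := ENNReal.ofReal (η / 2 * b / (w + 1))) (fun c hc => by
      rw [← ofReal_norm]; exact ENNReal.ofReal_le_ofReal (hκ c hc))
  have h2 : ∫⁻ x, ‖fderiv ℝ φ x‖ₑ ∂μ ≤ ENNReal.ofReal (C * |R|) := by
    have h3 : ∫⁻ x, ‖fderiv ℝ φ x‖ₑ ∂μ = eLpNorm (gradient φ) 1 μ := by
      rw [eLpNorm_one_eq_lintegral_enorm]
      refine lintegral_congr fun x => ?_
      rw [← ofReal_norm, ← ofReal_norm, norm_gradient]
    rw [h3]
    refine (hC φ hφ).trans ?_
    rw [← eLpNorm_congr_ae hp.2, ← Lp.enorm_def, ← ofReal_norm,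
      ENNReal.ofReal_mul (by positivity), ENNReal.ofReal_coe_nnreal]
    gcongr
    exact hR.trans (le_abs_self R)
  have h4 : ∫⁻ x, ‖φ x‖ₑ ∂μ = ENNReal.ofReal (∫ x, |φ x| ∂μ) :=
    (ofReal_integral_norm_eq_lintegral_enorm
      (memLp_one_iff_integrable.1 (hφ.memLp 1))).symm
  have h5 : μ (ball 0 δ) = ENNReal.ofReal b := (ofReal_measureReal measure_ball_lt_top.ne).symm
  have h6 : μ Ω = ENNReal.ofReal w := (ofReal_measureReal hΩ.measure_lt_top.ne).symm
  have h7 := h1.trans (add_le_add le_rfl (mul_le_mul_left (mul_le_mul_right h2 _) _))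
  rw [h4, h5, h6, ← ENNReal.ofReal_mul hb0.le, ← ENNReal.ofReal_mul (by positivity),
    ← ENNReal.ofReal_mul (by positivity), ← ENNReal.ofReal_mul (by positivity),
    ← ENNReal.ofReal_mul (by positivity), ← ENNReal.ofReal_add (by positivity) (by positivity),
    ENNReal.ofReal_le_ofReal_iff (by positivity)] at h7
  have h8 : η / 2 * b / (w + 1) * w ≤ η / 2 * b := by
    rw [div_mul_eq_mul_div, div_le_iff₀ (by positivity)]
    have : 0 ≤ η / 2 * b := by positivity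
    nlinarith
  have h9 : 2 * δ * (C * |R|) * (2 ^ finrank ℝ E * b) ≤ η / 2 * b := by
    have e : η / 2 = δ * A := by rw [hδ]; field_simp
    rw [e, hA]
    have : 0 ≤ δ * b := by positivity
    nlinarith
  refine le_of_mul_le_mul_left (a := b) ?_ hb0
  linarith

theorem lq_small (hΩ : Bornology.IsBounded Ω) (hΩm : MeasurableSet Ω) (hN : 2 ≤ finrank ℝ E)
    {q : ℝ} (hq : 2 ≤ q) (hq' : ((finrank ℝ E : ℝ) - 2) * q < 2 * finrank ℝ E)
    (R : ℝ) {η : ℝ} (hη : 0 < η) :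
    ∃ (T : Set E) (δ κ : ℝ), T.Finite ∧ 0 < κ ∧ ∀ (p : V μ) (φ : E → ℝ), IsTest Ω φ → Rep p φ →
      ‖p.2‖ ≤ R → (∀ c ∈ T, |∫ y in ball c δ, φ y ∂μ| ≤ κ) → ∫ x, |φ x| ^ q ∂μ ≤ η := by
  obtain ⟨r, hqr, hr'⟩ : ∃ r, q < r ∧ ((finrank ℝ E : ℝ) - 2) * r < 2 * finrank ℝ E := by
    have : ∀ᶠ r in 𝓝[>] q, ((finrank ℝ E : ℝ) - 2) * r < 2 * finrank ℝ E :=
      nhdsWithin_le_nhds ((continuous_const_mul _).continuousAt.eventually_lt
        continuousAt_const hq')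
    exact (eventually_mem_nhdsWithin.and this).exists
  obtain ⟨C, hC0, hC⟩ := sobolev_W (μ := μ) hΩ hN (hq.trans hqr.le) hr'
  have hr0 : 0 < r := by linarith
  obtain ⟨K, hK, hK0⟩ : ∃ K : ℝ, K ^ (q - r) * (C * |R|) ^ r < η / 2 ∧ 0 < K := by
    have h1 : Tendsto (fun K : ℝ => K ^ (-(r - q)) * (C * |R|) ^ r) atTop
        (𝓝 (0 * (C * |R|) ^ r)) := (tendsto_rpow_neg_atTop (sub_pos.2 hqr)).mul_const _
    rw [zero_mul, neg_sub] at h1
    exact ((h1.eventually (gt_mem_nhds (half_pos hη))).and (eventually_gt_atTop 0)).exists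
  obtain ⟨T, δ, κ, hT, hκ, H⟩ := l1_small (μ := μ) hΩ hΩm R
    (η := η / 2 / K ^ (q - 1)) (by positivity)
  refine ⟨T, δ, κ, hT, hκ, fun p φ hφ hp hR hc => ?_⟩
  have h1 := H p φ hφ hp hR hc
  have i1 : Integrable (fun x => |φ x|) μ := (memLp_one_iff_integrable.1 (hφ.memLp 1)).abs
  have i2 : Integrable (fun x => |φ x| ^ r) μ := integrable_rpow hr0 (hφ.memLp _)
  have h2 : ∫ x, |φ x| ^ q ∂μ ≤ ∫ x, (K ^ (q - 1) * |φ x| + K ^ (q - r) * |φ x| ^ r) ∂μ := by
    refine integral_mono (integrable_rpow (by linarith) (hφ.memLp _))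
      ((i1.const_mul _).add (i2.const_mul _)) fun x => ?_
    have := rpow_le_add (a := 1) (b := q) (c := r) hK0 (abs_nonneg (φ x)) zero_le_one
      (by linarith) hqr.le
    rwa [Real.rpow_one] at this
  rw [integral_add (i1.const_mul _) (i2.const_mul _), integral_const_mul, integral_const_mul]
    at h2
  have h3 : ∫ x, |φ x| ^ r ∂μ ≤ (C * |R|) ^ r := by
    rw [← lqNorm_rpow hr0, ← lqNorm_congr hp.1]
    refine Real.rpow_le_rpow (lqNorm_nonneg _) ?_ hr0.le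
    refine (hC p (graph_le_W ⟨φ, hφ, hp⟩)).2.trans ?_
    gcongr
    exact hR.trans (le_abs_self R)
  have h4 : K ^ (q - 1) * ∫ x, |φ x| ∂μ ≤ η / 2 := by
    rwa [le_div_iff₀' (by positivity)] at h1
  have h5 : K ^ (q - r) * ∫ x, |φ x| ^ r ∂μ ≤ K ^ (q - r) * (C * |R|) ^ r := by gcongr
  linarith

theorem Rep.sub {p p' : V μ} {ψ : E → ℝ} (hφ : IsTest Ω φ) (hψ : IsTest Ω ψ) (h : Rep p φ)
    (h' : Rep p' ψ) : IsTest Ω (fun x => φ x + (-1) * ψ x) ∧
      Rep (p - p') (fun x => φ x + (-1) * ψ x) := by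
  refine ⟨hφ.add (hψ.smul _), ?_, ?_⟩
  · filter_upwards [Lp.coeFn_sub p.1 p'.1, h.1, h'.1] with x e1 e2 e3
    rw [Prod.fst_sub, e1, Pi.sub_apply, e2, e3]; ring
  · filter_upwards [Lp.coeFn_sub p.2 p'.2, h.2, h'.2] with x e1 e2 e3
    rw [Prod.snd_sub, e1, Pi.sub_apply, e2, e3,
      gradient_add' hφ.differentiable (hψ.smul _).differentiable,
      gradient_const_mul' hψ.differentiable, neg_one_smul, sub_eq_add_neg]

/-- Rellich-Kondrachov. -/
theorem rellich (hΩ : Bornology.IsBounded Ω) (hΩm : MeasurableSet Ω) (hN : 2 ≤ finrank ℝ E)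
    {q : ℝ} (hq : 2 ≤ q) (hq' : ((finrank ℝ E : ℝ) - 2) * q < 2 * finrank ℝ E)
    [Fact (1 ≤ ENNReal.ofReal q)] (J : W μ Ω →L[ℝ] Lp ℝ (ENNReal.ofReal q) μ)
    (hJ : ∀ p, J p =ᵐ[μ] (p : V μ).1) (R : ℝ) :
    TotallyBounded (J '' {p | ‖(p : V μ).2‖ < R}) := by
  have hq0 : 0 < q := by linarith
  let α : Type := {p : W μ Ω // (p : V μ) ∈ graph μ Ω ∧ ‖(p : V μ).2‖ < R}
  have hopen : IsOpen {p : W μ Ω | ‖(p : V μ).2‖ < R} :=
    isOpen_lt (by fun_prop) continuous_const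
  have hsub : J '' {p | ‖(p : V μ).2‖ < R} ⊆ closure (range fun p : α => J p.1) := by
    refine (image_mono (dense_graph.open_subset_closure_inter hopen)).trans
      ((image_closure_subset_closure_image J.continuous).trans (closure_mono ?_))
    rintro _ ⟨p, hp, rfl⟩
    exact ⟨⟨p, hp.2, hp.1⟩, rfl⟩
  refine TotallyBounded.subset hsub (TotallyBounded.closure ?_)
  choose φ hφ hrep using fun p : α => p.2.1
  have hint : ∀ p, Integrable (φ p) μ := fun p => memLp_one_iff_integrable.1 ((hφ p).memLp 1)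
  refine totallyBounded_of_approx _ fun η hη => ?_
  obtain ⟨T, δ, κ, hT, hκ, H⟩ := lq_small (μ := μ) hΩ hΩm hN hq hq' (2 * R)
    (η := (η / 2) ^ q) (by positivity)
  have : Fintype T := hT.fintype
  obtain ⟨C, hC0, hC⟩ := poincare_W (μ := μ) hΩ hN
  refine ⟨T → ℝ, inferInstance, fun p c => ∫ y in ball (c : E) δ, φ p y ∂μ, ?_, κ, hκ,
    fun p p' hpp => ?_⟩
  · set B : ℝ := μ.real (ball 0 δ) + (C * R) ^ 2
    refine (isCompact_closedBall (0 : T → ℝ) B).totallyBounded.subset ?_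
    rintro _ ⟨p, rfl⟩
    rw [mem_closedBall_zero_iff, pi_norm_le_iff_of_nonneg (by positivity)]
    intro c
    have i2 : Integrable (fun x => ‖φ p x‖ ^ 2) μ :=
      ((hφ p).memLp 2).integrable_norm_pow two_ne_zero
    have h1 : ∫ x, ‖φ p x‖ ^ 2 ∂μ ≤ (C * R) ^ 2 := by
      have : ∫ x, ‖φ p x‖ ^ 2 ∂μ = ‖(p.1 : V μ).1‖ ^ 2 := by
        rw [norm_sq_eq_integral]
        exact integral_congr_ae ((hrep p).1.mono fun x hx => by simp only [hx])
      rw [this]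
      gcongr
      refine (norm_fst_le _).trans ((hC p.1).trans ?_)
      gcongr
      exact p.2.2.le
    have hc1 : IntegrableOn (fun _ => (1 : ℝ)) (ball (c : E) δ) μ :=
      integrableOn_const measure_ball_lt_top.ne
    calc ‖∫ y in ball (c : E) δ, φ p y ∂μ‖ ≤ ∫ y in ball (c : E) δ, ‖φ p y‖ ∂μ :=
          norm_integral_le_integral_norm _
      _ ≤ ∫ y in ball (c : E) δ, (1 + ‖φ p y‖ ^ 2) ∂μ :=
          integral_mono (hint p).norm.integrableOn (Integrable.add hc1 i2.integrableOn) fun y => by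
            dsimp only
            nlinarith [norm_nonneg (φ p y), sq_nonneg (‖φ p y‖ - 1)]
      _ = μ.real (ball (c : E) δ) + ∫ y in ball (c : E) δ, ‖φ p y‖ ^ 2 ∂μ := by
          rw [integral_add hc1 i2.integrableOn]; simp
      _ ≤ B := by
          refine add_le_add (le_of_eq ?_) (le_trans ?_ h1)
          · simp only [Measure.real, Measure.addHaar_ball_center μ (c : E)]
          · exact setIntegral_le_integral i2 (Eventually.of_forall fun _ => by positivity)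
  · obtain ⟨h1, h2⟩ := Rep.sub (hφ p) (hφ p') (hrep p) (hrep p')
    have h3 := H _ _ h1 h2 (by
      rw [Prod.snd_sub]
      linarith [norm_sub_le (p.1 : V μ).2 (p'.1 : V μ).2, p.2.2, p'.2.2]) (fun c hc => by
      have h4 := (dist_le_pi_dist _ _ (⟨c, hc⟩ : T)).trans hpp.le
      rw [integral_add (hint p).integrableOn ((hint p').const_mul _).integrableOn,
        integral_const_mul, neg_one_mul, ← sub_eq_add_neg]
      exact h4)
    rw [← lqNorm_rpow hq0, Real.rpow_le_rpow_iff (lqNorm_nonneg _) (by positivity) hq0] at h3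
    rw [dist_eq_norm, ← map_sub, norm_eq_lqNorm hq0, lqNorm_congr ((hJ _).trans h2.1)]
    linarith

end Pool.Agent.Lib.MP_eb4995_an
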