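import Mathlib
import Pool.Agent.Lib.MP_eb4995_an.Basic

/-!
Constrained local minimizers and their Euler-Lagrange equation.
-/

set_option linter.unusedSectionVars false

namespace Pool.Agent.Lib.MP_eb4995_an

open MeasureTheory Set Filter Topology Metric
open scoped ENNReal NNReal

section Abstract

variable {H K L : Type} [NormedAddCommGroup H] [NormedSpace ℝ H] [NormedAddCommGroup K]
  [InnerProductSpace ℝ K] [NormedAddCommGroup L] [NormedSpace ℝ L]

theorem homogeneous_le (G : H →L[ℝ] K) (J : H →L[ℝ] L) {O : Set L} {m : ℝ}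
    (hm : ∀ p, ‖J p‖ = 1 → J p ∈ O → m ≤ ‖G p‖ ^ 2) (p : H) (h0 : J p ≠ 0)
    (hO : ‖J p‖⁻¹ • J p ∈ O) : m * ‖J p‖ ^ 2 ≤ ‖G p‖ ^ 2 := by
  have hpos : 0 < ‖J p‖ := norm_pos_iff.2 h0
  have := hm (‖J p‖⁻¹ • p) (by
    rw [map_smul, norm_smul, norm_inv, norm_norm, inv_mul_cancel₀ hpos.ne']) (by
    rwa [map_smul])
  rw [map_smul, norm_smul, norm_inv, norm_norm, mul_pow, inv_pow, inv_mul_eq_div,
    le_div_iff₀ (by positivity)] at this
  exact this

theorem eventually_normalize {ι : Type} {l : Filter ι} {O : Set L} (hO : IsOpen O) {w : ι → L}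
    {v : L} (hv : ‖v‖ = 1) (hvO : v ∈ O) {c : ℝ} (hc : 0 < c) (hw : Tendsto w l (𝓝 (c • v))) :
    ∀ᶠ i in l, w i ≠ 0 ∧ ‖w i‖⁻¹ • w i ∈ O := by
  have hn : ‖c • v‖ = c := by rw [norm_smul, hv, mul_one, Real.norm_of_nonneg hc.le]
  have h0 : c • v ≠ 0 := by rw [← norm_ne_zero_iff, hn]; exact hc.ne'
  have h1 : Tendsto (fun i => ‖w i‖⁻¹ • w i) l (𝓝 (‖c • v‖⁻¹ • c • v)) :=
    (hw.norm.inv₀ (norm_ne_zero_iff.2 h0)).smul hw
  rw [hn, smul_smul, inv_mul_cancel₀ hc.ne', one_smul] at h1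
  exact (hw.eventually_ne h0).and (h1.eventually (hO.mem_nhds hvO))

theorem exists_minimizer [CompleteSpace H] [CompleteSpace L] (G : H →L[ℝ] K) (J : H →L[ℝ] L)
    {C : ℝ} (hC : ∀ p, ‖p‖ ≤ C * ‖G p‖)
    (hcomp : ∀ R, TotallyBounded (J '' {p | ‖G p‖ < R})) {O F : Set L} (hO : IsOpen O)
    (hF : IsClosed F) (hFO : F ⊆ O) {m' : ℝ}
    (hbar : ∀ p, ‖J p‖ = 1 → J p ∈ O → ‖G p‖ ^ 2 < m' → J p ∈ F)
    (hne : ∃ p, ‖J p‖ = 1 ∧ J p ∈ O ∧ ‖G p‖ ^ 2 < m') :
    ∃ p, ‖J p‖ = 1 ∧ J p ∈ O ∧ ∀ p', ‖J p'‖ = 1 → J p' ∈ O → ‖G p‖ ^ 2 ≤ ‖G p'‖ ^ 2 := by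
  set S : Set ℝ := (fun p => ‖G p‖ ^ 2) '' {p | ‖J p‖ = 1 ∧ J p ∈ O} with hS
  obtain ⟨p₀, h1, h2, h3⟩ := hne
  have hSne : S.Nonempty := ⟨_, p₀, ⟨h1, h2⟩, rfl⟩
  have hSb : BddBelow S := ⟨0, by rintro _ ⟨p, -, rfl⟩; positivity⟩
  set m := sInf S with hm
  have hmle : ∀ p, ‖J p‖ = 1 → J p ∈ O → m ≤ ‖G p‖ ^ 2 :=
    fun p h h' => csInf_le hSb ⟨p, ⟨h, h'⟩, rfl⟩
  have hmm' : m < m' := (hmle p₀ h1 h2).trans_lt h3
  obtain ⟨u, -, hu, huS⟩ := exists_seq_tendsto_sInf hSne hSb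
  choose y hy hyu using huS
  have hylim : Tendsto (fun n => ‖G (y n)‖ ^ 2) atTop (𝓝 m) := by
    exact hu.congr fun n => (hyu n).symm
  have hlt : ∀ᶠ n in atTop, ‖G (y n)‖ ^ 2 < m' := hylim.eventually (gt_mem_nhds hmm')
  have hK : IsCompact (closure (J '' {p | ‖G p‖ < |m'| + 1})) :=
    (hcomp _).closure.isCompact_of_isClosed isClosed_closure
  have hin : ∀ᶠ n in atTop, J (y n) ∈ closure (J '' {p | ‖G p‖ < |m'| + 1}) := by
    refine hlt.mono fun n hn => subset_closure (mem_image_of_mem _ ?_)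
    have := le_abs_self m'
    have := abs_nonneg m'
    have := norm_nonneg (G (y n))
    simp only [mem_ofPred_eq]
    nlinarith
  obtain ⟨v, -, s, hs, hv⟩ := hK.tendsto_subseq' (x := fun n => J (y n)) hin.frequently
  set x : ℕ → H := fun n => y (s n) with hx
  have hv' : Tendsto (fun n => J (x n)) atTop (𝓝 v) := hv
  have hxlim : Tendsto (fun n => ‖G (x n)‖ ^ 2) atTop (𝓝 m) := hylim.comp hs.tendsto_atTop
  have hv1 : ‖v‖ = 1 := by
    refine tendsto_nhds_unique hv'.norm ?_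
    simp only [hx, (hy _).1, tendsto_const_nhds]
  have hvF : v ∈ F := hF.mem_of_tendsto hv'
    ((hs.tendsto_atTop.eventually hlt).mono fun n hn => hbar _ (hy _).1 (hy _).2 hn)
  have t1 : Tendsto (Prod.fst : ℕ × ℕ → ℕ) atTop atTop := by
    rw [← prod_atTop_atTop_eq]; exact tendsto_fst
  have t2 : Tendsto (Prod.snd : ℕ × ℕ → ℕ) atTop atTop := by
    rw [← prod_atTop_atTop_eq]; exact tendsto_snd
  have hsum : Tendsto (fun k : ℕ × ℕ => J (x k.1 + x k.2)) atTop (𝓝 ((2 : ℝ) • v)) := by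
    simp only [map_add, two_smul]
    exact (hv'.comp t1).add (hv'.comp t2)
  have hzero : Tendsto (fun k : ℕ × ℕ => ‖G (x k.1 - x k.2)‖ ^ 2) atTop (𝓝 0) := by
    have h4 : Tendsto (fun k : ℕ × ℕ => 2 * (‖G (x k.1)‖ ^ 2 + ‖G (x k.2)‖ ^ 2) -
        m * ‖J (x k.1 + x k.2)‖ ^ 2) atTop (𝓝 (2 * (m + m) - m * ‖(2 : ℝ) • v‖ ^ 2)) :=
      (((hxlim.comp t1).add (hxlim.comp t2)).const_mul 2).sub ((hsum.norm.pow 2).const_mul m)
    have h5 : 2 * (m + m) - m * ‖(2 : ℝ) • v‖ ^ 2 = 0 := by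
      rw [norm_smul, hv1]; norm_num; ring
    rw [h5] at h4
    refine squeeze_zero' (Eventually.of_forall fun _ => by positivity) ?_ h4
    filter_upwards [eventually_normalize hO hv1 (hFO hvF) two_pos hsum] with k hk
    have h6 := homogeneous_le G J hmle _ hk.1 hk.2
    have h7 := parallelogram_law_with_norm ℝ (G (x k.1)) (G (x k.2))
    rw [map_add G] at h6
    rw [map_sub]
    linarith
  have hcauchy : CauchySeq x := by
    rw [cauchySeq_iff_tendsto_dist_atTop_0]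
    have h8 : Tendsto (fun k : ℕ × ℕ => C * ‖G (x k.1 - x k.2)‖) atTop (𝓝 0) := by
      have := (hzero.sqrt).const_mul C
      simpa using this
    refine squeeze_zero (fun _ => dist_nonneg) (fun k => ?_) h8
    rw [dist_eq_norm]; exact hC _
  obtain ⟨p, hp⟩ := cauchySeq_tendsto_of_complete hcauchy
  have hJp : J p = v := tendsto_nhds_unique ((J.continuous.tendsto p).comp hp) hv'
  have hGp : ‖G p‖ ^ 2 = m :=
    tendsto_nhds_unique ((((G.continuous.tendsto p).comp hp).norm).pow 2) hxlim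
  exact ⟨p, hJp ▸ hv1, hJp ▸ hFO hvF, fun p' h h' => hGp ▸ hmle p' h h'⟩

theorem euler_lagrange (G : H →L[ℝ] K) (J : H →L[ℝ] L) {O : Set L} (hO : IsOpen O) {p : H}
    (h1 : ‖J p‖ = 1) (h2 : J p ∈ O)
    (hmin : ∀ p', ‖J p'‖ = 1 → J p' ∈ O → ‖G p‖ ^ 2 ≤ ‖G p'‖ ^ 2) (h : H) {d : ℝ}
    (hd : HasDerivAt (fun t : ℝ => ‖J p + t • J h‖ ^ 2) d 0) :
    2 * inner ℝ (G p) (G h) = ‖G p‖ ^ 2 * d := by
  have hG : HasDerivAt (fun t : ℝ => ‖G p + t • G h‖ ^ 2) (2 * inner ℝ (G p) (G h)) 0 := by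
    have h3 : HasDerivAt (fun t : ℝ => G p + t • G h) (G h) 0 := by
      simpa using ((hasDerivAt_id (0 : ℝ)).smul_const (G h)).const_add (G p)
    simpa using h3.norm_sq
  have hlim : Tendsto (fun t : ℝ => J (p + t • h)) (𝓝 0) (𝓝 ((1 : ℝ) • J p)) := by
    have : Continuous fun t : ℝ => J (p + t • h) := by fun_prop
    simpa using this.tendsto 0
  have hloc : IsLocalMin (fun t : ℝ => ‖G p + t • G h‖ ^ 2 - ‖G p‖ ^ 2 * ‖J p + t • J h‖ ^ 2) 0 := by
    filter_upwards [eventually_normalize hO h1 h2 one_pos hlim] with t ht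
    have := homogeneous_le G J hmin _ ht.1 ht.2
    simp only [map_add, map_smul] at this
    simp only [zero_smul, add_zero, h1]
    linarith
  have := hloc.hasDerivAt_eq_zero (hG.sub (hd.const_mul _))
  linarith

end Abstract

variable {α : Type} [MeasurableSpace α] {μ : Measure α} {q : ℝ}

theorem hasDerivAt_integral_rpow (hq : 1 < q) {u w : α → ℝ}
    (hu : MemLp u (ENNReal.ofReal q) μ) (hw : MemLp w (ENNReal.ofReal q) μ) :
    HasDerivAt (fun t : ℝ => ∫ x, |u x + t * w x| ^ q ∂μ)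
      (q * ∫ x, |u x| ^ (q - 2) * u x * w x ∂μ) 0 := by
  have hq0 : 0 < q := by linarith
  have hb : Integrable (fun x => q * |(|u x| + |w x|)| ^ q) μ :=
    (integrable_rpow hq0 (hu.abs.add hw.abs)).const_mul q
  have hum := hu.1.aemeasurable
  have hwm := hw.1.aemeasurable
  have := hasDerivAt_integral_of_dominated_loc_of_deriv_le (μ := μ)
    (F := fun (t : ℝ) x => |u x + t * w x| ^ q)
    (F' := fun (t : ℝ) x => q * |u x + t * w x| ^ (q - 2) * (u x + t * w x) * w x)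
    (bound := fun x => q * |(|u x| + |w x|)| ^ q) (x₀ := 0) (s := ball 0 1)
    (ball_mem_nhds 0 one_pos)
    (Eventually.of_forall fun t => AEMeasurable.aestronglyMeasurable (by fun_prop))
    (by simpa using integrable_rpow hq0 hu)
    (AEMeasurable.aestronglyMeasurable (by fun_prop))
    (Eventually.of_forall fun x t ht => ?_) hb
    (Eventually.of_forall fun x t _ => ?_)
  · refine this.2.congr_deriv ?_
    rw [← integral_const_mul]
    refine integral_congr_ae (Eventually.of_forall fun x => ?_)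
    simp only [zero_mul, add_zero]; ring
  · rw [mem_ball_zero_iff, Real.norm_eq_abs] at ht
    set s := u x + t * w x with hs
    set a := |u x| + |w x| with ha
    have ha0 : 0 ≤ a := by positivity
    have hsa : |s| ≤ a := by
      refine (abs_add_le _ _).trans (add_le_add le_rfl ?_)
      rw [abs_mul]; exact mul_le_of_le_one_left (abs_nonneg _) ht.le
    have hwa : |w x| ≤ a := le_add_of_nonneg_left (abs_nonneg _)
    have e1 : |s| ^ (q - 2) * |s| = |s| ^ (q - 1) := by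
      rw [← Real.rpow_add_one' (abs_nonneg s) (by linarith)]; ring_nf
    have e2 : a ^ (q - 1) * a = a ^ q := by
      rw [← Real.rpow_add_one' ha0 (by linarith)]; ring_nf
    rw [abs_of_nonneg ha0, Real.norm_eq_abs, abs_mul, abs_mul, abs_mul, abs_of_pos hq0,
      abs_of_nonneg (Real.rpow_nonneg (abs_nonneg s) _), mul_assoc q, e1, mul_assoc, ← e2]
    gcongr
  · have h1 : HasDerivAt (fun t : ℝ => u x + t * w x) (w x) t := by
      simpa using ((hasDerivAt_id t).mul_const (w x)).const_add (u x)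
    exact (hasDerivAt_abs_rpow _ hq).comp t h1

theorem hasDerivAt_norm_sq_Lp (hq : 1 < q) [Fact (1 ≤ ENNReal.ofReal q)]
    (u w : Lp ℝ (ENNReal.ofReal q) μ) (hu : ‖u‖ = 1) :
    HasDerivAt (fun t : ℝ => ‖u + t • w‖ ^ 2) (2 * ∫ x, |u x| ^ (q - 2) * u x * w x ∂μ) 0 := by
  have hq0 : 0 < q := by linarith
  have h1 : (fun t : ℝ => ‖u + t • w‖ ^ 2) =
      fun t : ℝ => (∫ x, |u x + t * w x| ^ q ∂μ) ^ (2 / q) := by
    funext t
    have h2 : (u + t • w : Lp ℝ (ENNReal.ofReal q) μ) =ᵐ[μ] fun x => u x + t * w x := by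
      filter_upwards [Lp.coeFn_add u (t • w), Lp.coeFn_smul t w] with x e1 e2
      rw [e1, Pi.add_apply, e2, Pi.smul_apply, smul_eq_mul]
    rw [norm_eq_lqNorm hq0, lqNorm_congr h2, ← lqNorm_rpow hq0,
      ← Real.rpow_mul (lqNorm_nonneg _), mul_div_cancel₀ _ hq0.ne', Real.rpow_two]
  have h3 : ∫ x, |u x + 0 * w x| ^ q ∂μ = 1 := by
    simp only [zero_mul, add_zero]
    rw [← lqNorm_rpow hq0, ← norm_eq_lqNorm hq0, hu, Real.one_rpow]
  rw [h1]
  have h4 := (hasDerivAt_integral_rpow hq (Lp.memLp u) (Lp.memLp w)).rpow_const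
    (p := 2 / q) (Or.inl (by rw [h3]; exact one_ne_zero))
  refine h4.congr_deriv ?_
  rw [h3, Real.one_rpow]
  field_simp

end Pool.Agent.Lib.MP_eb4995_an
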