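import Mathlib
import Pool.Agent.Lib.MP_eb4995_an.Sobolev

/-!
Positive and negative parts, and the lower bound for sets of genus at least two.
-/

set_option linter.unusedSectionVars false

namespace Pool.Agent.Lib.MP_eb4995_an

open MeasureTheory Set Filter Topology Metric Module
open scoped ContDiff ENNReal NNReal

/-- A smooth approximation of the positive part. -/
noncomputable def tr (ε t : ℝ) : ℝ := t * expNegInvGlue (t / ε)

theorem tr_contDiff (ε : ℝ) : ContDiff ℝ ∞ (tr ε) :=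
  contDiff_id.mul (expNegInvGlue.contDiff.comp (contDiff_id.div_const ε))

theorem tr_of_nonpos {ε t : ℝ} (hε : 0 < ε) (ht : t ≤ 0) : tr ε t = 0 := by
  rw [tr, expNegInvGlue.zero_of_nonpos (div_nonpos_of_nonpos_of_nonneg ht hε.le), mul_zero]

theorem tr_of_pos {ε t : ℝ} (hε : 0 < ε) (ht : 0 < t) : tr ε t = t * Real.exp (-(ε / t)) := by
  rw [tr, expNegInvGlue, if_neg (not_le.2 (div_pos ht hε)), inv_div]

theorem tr_bounds {ε : ℝ} (hε : 0 < ε) (t : ℝ) :
    0 ≤ tr ε t ∧ tr ε t ≤ max t 0 ∧ max t 0 - ε ≤ tr ε t := by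
  rcases le_or_gt t 0 with ht | ht
  · rw [tr_of_nonpos hε ht, max_eq_right ht]
    exact ⟨le_rfl, le_rfl, by linarith⟩
  · rw [tr_of_pos hε ht, max_eq_left ht.le]
    have h1 : Real.exp (-(ε / t)) ≤ 1 := Real.exp_le_one_iff.2 (by
      have := div_pos hε ht; linarith)
    have h2 : -(ε / t) + 1 ≤ Real.exp (-(ε / t)) := Real.add_one_le_exp _
    have h3 : t * (ε / t) = ε := mul_div_cancel₀ _ ht.ne'
    refine ⟨by positivity, by nlinarith, by nlinarith⟩

theorem deriv_tr_of_nonpos {ε t : ℝ} (hε : 0 < ε) (ht : t ≤ 0) : deriv (tr ε) t = 0 := by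
  refine IsLocalMin.deriv_eq_zero (Eventually.of_forall fun s => ?_)
  rw [tr_of_nonpos hε ht]
  exact (tr_bounds hε s).1

theorem deriv_tr_sq_le {ε : ℝ} (hε : 0 < ε) (t : ℝ) : deriv (tr ε) t ^ 2 ≤ 1 := by
  rcases le_or_gt t 0 with ht | ht
  · rw [deriv_tr_of_nonpos hε ht]; norm_num
  · have h1 : tr ε =ᶠ[𝓝 t] fun t => t * Real.exp (-(ε / t)) :=
      (lt_mem_nhds ht).mono fun s hs => tr_of_pos hε hs
    have h2 : HasDerivAt (fun t => -(ε / t)) (ε / t ^ 2) t := by
      have := ((hasDerivAt_inv ht.ne').const_mul ε).neg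
      refine (this.congr_deriv (by ring)).congr_of_eventuallyEq (Eventually.of_forall fun s => ?_)
      simp [div_eq_mul_inv]
    have h3 := ((hasDerivAt_id t).mul h2.exp).deriv
    have h4 : deriv (tr ε) t = Real.exp (-(ε / t)) * (ε / t + 1) := by
      rw [h1.deriv_eq]
      refine h3.trans ?_
      simp only [id]
      field_simp
      ring
    have h5 : ε / t + 1 ≤ Real.exp (ε / t) := Real.add_one_le_exp _
    have h6 : Real.exp (-(ε / t)) * Real.exp (ε / t) = 1 := by rw [← Real.exp_add]; simp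
    have h7 : 0 < ε / t := div_pos hε ht
    have h8 : 0 < Real.exp (-(ε / t)) := Real.exp_pos _
    have h9 : Real.exp (-(ε / t)) * (ε / t + 1) ≤ 1 := by nlinarith
    rw [h4]
    exact pow_le_one₀ (by positivity) h9

theorem deriv_tr_add {ε : ℝ} (hε : 0 < ε) (t : ℝ) :
    deriv (tr ε) t ^ 2 + deriv (tr ε) (-1 * t) ^ 2 ≤ 1 := by
  rcases le_total t 0 with ht | ht
  · rw [deriv_tr_of_nonpos hε ht]; simpa using deriv_tr_sq_le hε (-t)
  · rw [deriv_tr_of_nonpos hε (t := -1 * t) (by linarith)]; simpa using deriv_tr_sq_le hε t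

theorem tendsto_lqNorm_tr {α : Type} [MeasurableSpace α] {μ : Measure α} {q : ℝ} (hq : 0 < q)
    {u : α → ℝ} (hu : MemLp u (ENNReal.ofReal q) μ) :
    Tendsto (fun n : ℕ => lqNorm μ q fun x => tr (1 / ((n : ℝ) + 1)) (u x)) atTop
      (𝓝 (lqNorm μ q fun x => max (u x) 0)) := by
  have hpos : ∀ n : ℕ, (0 : ℝ) < 1 / ((n : ℝ) + 1) := fun n => by positivity
  have hum := hu.1.aemeasurable
  refine Tendsto.rpow_const ?_ (Or.inr (by positivity))
  refine tendsto_integral_of_dominated_convergence (fun x => |u x| ^ q) (fun n => ?_)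
    (integrable_rpow hq hu) (fun n => Eventually.of_forall fun x => ?_)
    (Eventually.of_forall fun x => ?_)
  · have := (tr_contDiff (1 / ((n : ℝ) + 1))).continuous.measurable
    exact AEMeasurable.aestronglyMeasurable (by fun_prop)
  · obtain ⟨h1, h2, -⟩ := tr_bounds (hpos n) (u x)
    rw [Real.norm_of_nonneg (by positivity), abs_of_nonneg h1]
    exact Real.rpow_le_rpow h1 (h2.trans (max_le (le_abs_self _) (abs_nonneg _))) hq.le
  · refine Tendsto.rpow_const (Tendsto.abs ?_) (Or.inr hq.le)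
    have h3 : Tendsto (fun n : ℕ => max (u x) 0 - 1 / ((n : ℝ) + 1)) atTop
        (𝓝 (max (u x) 0 - 0)) := tendsto_const_nhds.sub tendsto_one_div_add_atTop_nhds_zero_nat
    rw [sub_zero] at h3
    exact tendsto_of_tendsto_of_tendsto_of_le_of_le h3 tendsto_const_nhds
      (fun n => (tr_bounds (hpos n) (u x)).2.2) (fun n => (tr_bounds (hpos n) (u x)).2.1)

theorem genus_le_one {X : Type} [TopologicalSpace X] [Neg X] {F : Set X} (l : X → ℝ)
    (hc : ContinuousOn l F) (h0 : ∀ p ∈ F, l p ≠ 0) (hodd : ∀ p ∈ F, l (-p) = -l p) :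
    genus F ≤ 1 := by
  refine iInf_le_of_le 1 (iInf_le_of_le le_rfl (iInf_le_of_le
    ⟨fun p => (l p / |l p|) • EuclideanSpace.single 0 1, ?_, fun p hp => ?_, fun p hp => ?_⟩
      (by simp)))
  · exact (hc.div hc.abs fun p hp => abs_ne_zero.2 (h0 p hp)).smul continuousOn_const
  · simp [norm_smul, h0 p hp]
  · simp only [hodd p hp, abs_neg, neg_div, neg_smul]

theorem one_le_genus {X : Type} [TopologicalSpace X] [Neg X] (F : Set X) : 1 ≤ genus F :=
  le_iInf fun k => le_iInf fun hk => le_iInf fun _ => by exact_mod_cast hk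

variable {E : Type} [NormedAddCommGroup E] [InnerProductSpace ℝ E] [CompleteSpace E]
  [MeasurableSpace E] [BorelSpace E] [FiniteDimensional ℝ E]
  {μ : Measure E} [μ.IsAddHaarMeasure] {Ω : Set E} {φ : E → ℝ} {q m : ℝ}

/-- `m` is a lower bound for the Rayleigh quotient on `Ω`. -/
def Good (μ : Measure E) (Ω : Set E) (q m : ℝ) : Prop :=
  ∀ φ : E → ℝ, IsTest Ω φ → m * lqNorm μ q φ ^ 2 ≤ dir μ φ

theorem parts_test (hq : 0 < q) (hm : Good μ Ω q m) (hφ : IsTest Ω φ) :
    m * (lqNorm μ q (fun x => max (φ x) 0) ^ 2 + lqNorm μ q (fun x => max (-φ x) 0) ^ 2) ≤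
      dir μ φ := by
  have hψ := hφ.smul (-1)
  have h1 := (((tendsto_lqNorm_tr hq (hφ.memLp (μ := μ) _)).pow 2).add
    ((tendsto_lqNorm_tr hq (hψ.memLp (μ := μ) _)).pow 2)).const_mul m
  simp only [neg_one_mul] at h1
  refine le_of_tendsto' h1 fun n => ?_
  set ε : ℝ := 1 / ((n : ℝ) + 1)
  have hε : 0 < ε := by positivity
  have hd : Differentiable ℝ (tr ε) := (tr_contDiff ε).differentiable (by simp)
  have t1 := hφ.comp_left (tr_contDiff ε) (tr_of_nonpos hε le_rfl)
  have t2 := hψ.comp_left (tr_contDiff ε) (tr_of_nonpos hε le_rfl)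
  have h2 := hm _ t1
  have h3 := hm _ t2
  have h4 : dir μ (fun x => tr ε (φ x)) + dir μ (fun x => tr ε (-1 * φ x)) ≤ dir μ φ := by
    unfold dir
    rw [← integral_add t1.integrable_sq_gradient t2.integrable_sq_gradient]
    refine integral_mono (t1.integrable_sq_gradient.add t2.integrable_sq_gradient)
      hφ.integrable_sq_gradient fun x => ?_
    dsimp only
    rw [gradient_comp' hφ.differentiable hd, gradient_comp' hψ.differentiable hd,
      gradient_const_mul' hφ.differentiable, norm_smul, norm_smul, norm_smul, mul_pow, mul_pow,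
      Real.norm_eq_abs, Real.norm_eq_abs, sq_abs, sq_abs, norm_neg, norm_one, one_mul, ← add_mul]
    exact mul_le_of_le_one_left (by positivity) (deriv_tr_add hε (φ x))
  simp only [neg_one_mul] at h3 h4
  linarith

variable [Fact (1 ≤ ENNReal.ofReal q)] (J : W μ Ω →L[ℝ] Lp ℝ (ENNReal.ofReal q) μ)

theorem continuous_contr (hq : 0 < q) (hJ : ∀ p, J p =ᵐ[μ] (p : V μ).1) {g : E → ℝ → ℝ}
    (hg : IsContr g) :
    Continuous fun p : W μ Ω => lqNorm μ q fun x => g x ((p : V μ).1 x) := by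
  refine ((hg.continuous hq).comp J.continuous).congr fun p => lqNorm_congr ?_
  filter_upwards [hJ p] with x hx
  rw [hx]

theorem parts_W (hq : 0 < q) (hJ : ∀ p, J p =ᵐ[μ] (p : V μ).1) (hm : Good μ Ω q m)
    (p : W μ Ω) :
    m * (lqNorm μ q (fun x => max ((p : V μ).1 x) 0) ^ 2 +
      lqNorm μ q (fun x => max (-(p : V μ).1 x) 0) ^ 2) ≤ ‖(p : V μ).2‖ ^ 2 := by
  revert p
  refine W_induction (isClosed_le ?_ (by fun_prop)) (fun p φ hφ hp => ?_)
  · exact (((continuous_contr J hq hJ isContr_pos).pow 2).add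
      ((continuous_contr J hq hJ isContr_neg).pow 2)).const_mul m
  · rw [hp.norm_sq]
    refine le_of_eq_of_le ?_ (parts_test hq hm hφ)
    rw [lqNorm_congr (v := fun x => max (φ x) 0) (hp.1.mono fun x hx => by simp only [hx]),
      lqNorm_congr (u := fun x => max (-(p : V μ).1 x) 0) (v := fun x => max (-φ x) 0)
        (hp.1.mono fun x hx => by simp only [hx])]

theorem genus_bound (hq : 0 < q) (hJ : ∀ p, J p =ᵐ[μ] (p : V μ).1) (hm : Good μ Ω q m)
    {F : Set (V μ)} (hF : ∀ p ∈ F, p ∈ W μ Ω ∧ lqNorm μ q p.1 = 1) (hg : 2 ≤ genus F) :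
    ∃ p ∈ F, m * 2 ^ (1 - 2 / q) ≤ ‖p.2‖ ^ 2 := by
  let l : V μ → ℝ := fun p =>
    lqNorm μ q (fun x => max (p.1 x) 0) - lqNorm μ q (fun x => max (-p.1 x) 0)
  have hl : ContinuousOn l (W μ Ω : Set (V μ)) := by
    rw [continuousOn_iff_continuous_domRestrict]
    exact (continuous_contr J hq hJ isContr_pos).sub (continuous_contr J hq hJ isContr_neg)
  have hodd : ∀ p, l (-p) = -l p := by
    intro p
    simp only [l, neg_sub, Prod.fst_neg]
    congr 1
    · exact lqNorm_congr ((Lp.coeFn_neg p.1).mono fun x hx => by simp only [hx, Pi.neg_apply])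
    · exact lqNorm_congr ((Lp.coeFn_neg p.1).mono fun x hx => by
        simp only [hx, Pi.neg_apply, neg_neg])
  have : ∃ p ∈ F, l p = 0 := by
    by_contra hcon
    push Not at hcon
    have := hg.trans (genus_le_one l (hl.mono fun p hp => (hF p hp).1) hcon fun p _ => hodd p)
    exact absurd this (by decide)
  obtain ⟨p, hp, hlp⟩ := this
  refine ⟨p, hp, le_of_eq_of_le ?_ (parts_W J hq hJ hm ⟨p, (hF p hp).1⟩)⟩
  have hu : MemLp p.1 (ENNReal.ofReal q) μ :=
    (Lp.memLp (J ⟨p, (hF p hp).1⟩)).ae_eq (hJ _)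
  set a := lqNorm μ q (fun x => max (p.1 x) 0) with ha
  have hb : lqNorm μ q (fun x => max (-p.1 x) 0) = a := (sub_eq_zero.1 hlp).symm
  have ha0 : 0 ≤ a := lqNorm_nonneg _
  have h1 : a ^ q + a ^ q = 1 := by
    nth_rewrite 2 [← hb]
    rw [ha, lqNorm_rpow hq, lqNorm_rpow hq, ← integral_add
      (integrable_rpow hq (isContr_pos.memLp hu)) (integrable_rpow hq (isContr_neg.memLp hu)),
      ← Real.one_rpow q, ← (hF p hp).2, lqNorm_rpow hq]
    refine integral_congr_ae (Eventually.of_forall fun x => ?_)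
    dsimp only
    rcases le_total (p.1 x) 0 with h | h
    · rw [max_eq_right h, max_eq_left (neg_nonneg.2 h), abs_zero, Real.zero_rpow hq.ne', abs_neg,
        zero_add]
    · rw [max_eq_left h, max_eq_right (neg_nonpos.2 h), abs_zero, Real.zero_rpow hq.ne', add_zero]
  have h2 : a ^ q = 2⁻¹ := by linarith
  have h3 : a ^ 2 = 2 ^ (-(2 / q)) := by
    rw [Real.rpow_neg zero_le_two, ← Real.inv_rpow zero_le_two, ← h2, ← Real.rpow_mul ha0,
      mul_div_cancel₀ _ hq.ne', Real.rpow_two]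
  dsimp only
  rw [hb, h3, sub_eq_add_neg, Real.rpow_add two_pos, Real.rpow_one]
  ring

end Pool.Agent.Lib.MP_eb4995_an
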