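import Mathlib
import Pool.Agent.Lib.MP_eb4995_an.Trunc

/-!
The first `q`-eigenvalue and its behaviour under dilations.
-/

set_option linter.unusedSectionVars false

namespace Pool.Agent.Lib.MP_eb4995_an

open MeasureTheory Set Filter Topology Metric Module
open scoped ContDiff ENNReal NNReal

variable {E : Type} [NormedAddCommGroup E] [InnerProductSpace ℝ E] [CompleteSpace E]
  [MeasurableSpace E] [BorelSpace E] [FiniteDimensional ℝ E]
  {μ : Measure E} [μ.IsAddHaarMeasure] {Ω Ω' : Set E} {φ : E → ℝ} {q m m' : ℝ}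

/-- `m` is the infimum of the Rayleigh quotient on `Ω`. -/
def IsLam (μ : Measure E) (Ω : Set E) (q m : ℝ) : Prop :=
  Good μ Ω q m ∧ ∀ η > 0, ∃ φ : E → ℝ, IsTest Ω φ ∧ lqNorm μ q φ = 1 ∧ dir μ φ < m + η

theorem dir_smul (hφ : IsTest Ω φ) (c : ℝ) : dir μ (fun x => c * φ x) = c ^ 2 * dir μ φ := by
  unfold dir
  rw [← integral_const_mul]
  refine integral_congr_ae (Eventually.of_forall fun x => ?_)
  dsimp only
  rw [gradient_const_mul' hφ.differentiable, norm_smul, mul_pow, Real.norm_eq_abs, sq_abs]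

theorem normalize (hq : 0 < q) (hφ : IsTest Ω φ) (h0 : lqNorm μ q φ ≠ 0) :
    ∃ ψ : E → ℝ, IsTest Ω ψ ∧ lqNorm μ q ψ = 1 ∧ dir μ ψ * lqNorm μ q φ ^ 2 = dir μ φ := by
  refine ⟨_, hφ.smul (lqNorm μ q φ)⁻¹, ?_, ?_⟩
  · rw [lqNorm_smul hq, abs_of_nonneg (inv_nonneg.2 (lqNorm_nonneg _)), inv_mul_cancel₀ h0]
  · rw [dir_smul hφ]; field_simp

theorem good_of_normalized (hq : 0 < q)
    (h : ∀ φ : E → ℝ, IsTest Ω φ → lqNorm μ q φ = 1 → m ≤ dir μ φ) : Good μ Ω q m := by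
  intro φ hφ
  by_cases h0 : lqNorm μ q φ = 0
  · rw [h0]; simpa using dir_nonneg μ φ
  · obtain ⟨ψ, hψ, h1, h2⟩ := normalize hq hφ h0
    rw [← h2]
    gcongr
    exact h ψ hψ h1

theorem exists_isLam (hq : 0 < q) (hΩ : IsOpen Ω) (hne : Ω.Nonempty) :
    ∃ m, IsLam μ Ω q m := by
  set S : Set ℝ := dir μ '' {φ | IsTest Ω φ ∧ lqNorm μ q φ = 1}
  have hSb : BddBelow S := ⟨0, by rintro _ ⟨φ, -, rfl⟩; exact dir_nonneg μ φ⟩
  have hSne : S.Nonempty := by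
    obtain ⟨x, hx⟩ := hne
    obtain ⟨f, h1, h2, h3, -, h4⟩ := exists_contDiff_tsupport_subset (n := ⊤) (hΩ.mem_nhds hx)
    have hf : IsTest Ω f := ⟨h3, h2, h1⟩
    have hpos : 0 < ∫ x, |f x| ^ q ∂μ :=
      integral_pos_of_integrable_nonneg_nonzero (x := x)
        (hf.continuous.abs.rpow_const fun _ => Or.inr hq.le)
        (integrable_rpow hq (hf.memLp _)) (fun _ => by positivity) (by simp [h4])
    obtain ⟨ψ, hψ, h5, -⟩ := normalize (μ := μ) hq hf (Real.rpow_pos_of_pos hpos _).ne'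
    exact ⟨_, ψ, ⟨hψ, h5⟩, rfl⟩
  refine ⟨sInf S, good_of_normalized hq fun φ hφ h1 => csInf_le hSb ⟨φ, ⟨hφ, h1⟩, rfl⟩,
    fun η hη => ?_⟩
  obtain ⟨_, ⟨φ, hφ, rfl⟩, h⟩ := exists_lt_of_csInf_lt hSne (lt_add_of_pos_right _ hη)
  exact ⟨φ, hφ.1, hφ.2, h⟩

theorem Good.mono (h : Good μ Ω' q m) (hΩ : Ω ⊆ Ω') : Good μ Ω q m :=
  fun φ hφ => h φ (hφ.mono hΩ)

theorem IsLam.le (h : IsLam μ Ω q m) (h' : Good μ Ω q m') : m' ≤ m := by
  refine le_of_forall_pos_le_add fun η hη => ?_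
  obtain ⟨φ, hφ, h1, h2⟩ := h.2 η hη
  have := h' φ hφ
  rw [h1] at this
  linarith

theorem exists_good_pos (hΩ : Bornology.IsBounded Ω) (hN : 2 ≤ finrank ℝ E) (hq : 2 ≤ q)
    (hq' : ((finrank ℝ E : ℝ) - 2) * q < 2 * finrank ℝ E) : ∃ m, 0 < m ∧ Good μ Ω q m := by
  obtain ⟨C, hC0, hC⟩ := sobolev_W (μ := μ) hΩ hN hq hq'
  refine ⟨(C ^ 2)⁻¹, by positivity, fun φ hφ => ?_⟩
  obtain ⟨p, hp⟩ := hφ.exists_rep μ
  have h1 := (hC p p.2).2
  rw [lqNorm_congr hp.1] at h1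
  rw [← hp.norm_sq, inv_mul_le_iff₀ (by positivity), ← mul_pow]
  exact pow_le_pow_left₀ (lqNorm_nonneg _) h1 2

theorem IsTest.comp_affine (hφ : IsTest Ω φ) {r : ℝ} (hr : r ≠ 0) (v : E) :
    IsTest ((fun x => r • x + v) ⁻¹' Ω) fun x => φ (r • x + v) := by
  let B : E ≃ₜ E := (Homeomorph.smulOfNeZero r hr).trans (Homeomorph.addRight v)
  refine ⟨hφ.1.comp (by fun_prop), hφ.2.1.comp_homeomorph B, ?_⟩
  refine Subset.trans (closure_minimal ?_ ((isClosed_tsupport φ).preimage B.continuous))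
    (preimage_mono hφ.2.2)
  exact fun x hx => subset_tsupport φ hx

theorem integral_comp_affine (f : E → ℝ) (r : ℝ) (v : E) :
    ∫ x, f (r • x + v) ∂μ = |(r ^ finrank ℝ E)⁻¹| * ∫ x, f x ∂μ := by
  rw [Measure.integral_comp_smul μ (fun y => f (y + v)) r, integral_add_right_eq_self,
    smul_eq_mul]

theorem gradient_comp_affine (hφ : Differentiable ℝ φ) (r : ℝ) (v x : E) :
    gradient (fun x => φ (r • x + v)) x = r • gradient φ (r • x + v) := by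
  have h1 : HasFDerivAt (fun x : E => r • x + v) (r • ContinuousLinearMap.id ℝ E) x :=
    ((hasFDerivAt_id x).const_smul r).add_const v
  have h2 := ((hφ (r • x + v)).hasFDerivAt.comp x h1).fderiv
  simp only [gradient]
  rw [show (fun x => φ (r • x + v)) = φ ∘ fun x => r • x + v from rfl, h2, ← map_smul]
  congr 1
  ext y
  simp

theorem dir_comp_affine (hφ : Differentiable ℝ φ) (r : ℝ) (v : E) :
    dir μ (fun x => φ (r • x + v)) = r ^ 2 * |(r ^ finrank ℝ E)⁻¹| * dir μ φ := by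
  unfold dir
  rw [mul_assoc, ← integral_comp_affine (fun x => ‖gradient φ x‖ ^ 2) r v, ← integral_const_mul]
  refine integral_congr_ae (Eventually.of_forall fun x => ?_)
  dsimp only
  rw [gradient_comp_affine hφ, norm_smul, mul_pow, Real.norm_eq_abs, sq_abs]

theorem lqNorm_comp_affine (φ : E → ℝ) (r : ℝ) (v : E) :
    lqNorm μ q (fun x => φ (r • x + v)) = |(r ^ finrank ℝ E)⁻¹| ^ (1 / q) * lqNorm μ q φ := by
  unfold lqNorm
  rw [integral_comp_affine (fun x => |φ x| ^ q) r v,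
    Real.mul_rpow (abs_nonneg _) (integral_nonneg fun _ => by positivity)]

theorem IsLam.comp_affine (hq : 0 < q) (h : IsLam μ Ω q m) {ρ : ℝ} (hρ : 0 < ρ) (v : E) :
    IsLam μ ((fun x => (-ρ) • x + v) ⁻¹' Ω) q
      (ρ ^ (2 - finrank ℝ E + 2 * finrank ℝ E / q : ℝ) * m) := by
  set N : ℝ := (finrank ℝ E : ℝ) with hN
  have hr : -ρ ≠ 0 := neg_ne_zero.2 hρ.ne'
  have ha : |((-ρ) ^ finrank ℝ E)⁻¹| = ρ ^ (-N) := by
    rw [abs_inv, abs_pow, abs_neg, abs_of_pos hρ, Real.rpow_neg hρ.le, hN, Real.rpow_natCast]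
  set κ : ℝ := ρ ^ (2 - N + 2 * N / q) with hκ
  have hκ0 : 0 < κ := Real.rpow_pos_of_pos hρ _
  set b : ℝ := (ρ ^ (-N)) ^ (1 / q) with hb
  have hb0 : 0 < b := by positivity
  have hkey : (-ρ) ^ 2 * ρ ^ (-N) = κ * b ^ 2 := by
    rw [neg_sq, hκ, hb, ← Real.rpow_mul hρ.le, ← Real.rpow_two, ← Real.rpow_two,
      ← Real.rpow_mul hρ.le, ← Real.rpow_add hρ, ← Real.rpow_add hρ]
    congr 1
    field_simp
    ring
  refine ⟨fun ψ hψ => ?_, fun η hη => ?_⟩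
  · have h1 := hψ.comp_affine (inv_ne_zero hr) (-((-ρ)⁻¹ • v))
    have h2 : (fun x => (-ρ)⁻¹ • x + -((-ρ)⁻¹ • v)) ⁻¹' ((fun x => (-ρ) • x + v) ⁻¹' Ω) = Ω := by
      ext x
      simp only [mem_preimage, smul_add, smul_neg, smul_smul, mul_inv_cancel₀ hr, one_smul,
        neg_add_cancel_right]
    rw [h2] at h1
    set φ : E → ℝ := fun x => ψ ((-ρ)⁻¹ • x + -((-ρ)⁻¹ • v)) with hφ
    have h3 : ψ = fun x => φ ((-ρ) • x + v) := by
      funext x
      simp only [hφ, smul_add, smul_smul, inv_mul_cancel₀ hr, one_smul, add_neg_cancel_right]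
    have h4 := h.1 φ h1
    rw [h3, dir_comp_affine h1.differentiable, lqNorm_comp_affine, ha, hkey, ← hb]
    have : 0 ≤ κ * b ^ 2 := by positivity
    nlinarith
  · obtain ⟨φ, hφ, h1, h2⟩ := h.2 (η / κ) (by positivity)
    have h3 := hφ.comp_affine hr v
    have h4 : lqNorm μ q (fun x => φ ((-ρ) • x + v)) = b := by
      rw [lqNorm_comp_affine, ha, h1, mul_one]
    obtain ⟨ψ, hψ, h5, h6⟩ := normalize (μ := μ) hq h3 (by rw [h4]; exact hb0.ne')
    refine ⟨ψ, hψ, h5, ?_⟩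
    rw [h4, dir_comp_affine hφ.differentiable, ha, hkey] at h6
    have h7 : dir μ ψ = κ * dir μ φ := by
      refine mul_right_cancel₀ (pow_ne_zero 2 hb0.ne') ?_
      rw [h6]; ring
    rw [h7]
    calc κ * dir μ φ < κ * (m + η / κ) := by gcongr
      _ = κ * m + η := by field_simp

end Pool.Agent.Lib.MP_eb4995_an
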