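import Mathlib
import Pool.Agent.Lib.MP_eb4995_an.Trunc

/-!
Localization of the Dirichlet integral across a thin region.
-/

set_option linter.unusedSectionVars false

namespace Pool.Agent.Lib.MP_eb4995_an

open MeasureTheory Set Filter Topology Metric Module
open scoped ContDiff ENNReal NNReal

section Parts

variable {α : Type} [MeasurableSpace α] {μ : Measure α} {q : ℝ} {u : α → ℝ}

theorem lqNorm_indicator_congr {v : α → ℝ} (A : Set α) (h : u =ᵐ[μ] v) :
    lqNorm μ q (A.indicator u) = lqNorm μ q (A.indicator v) :=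
  lqNorm_congr (h.mono fun x hx => by by_cases hA : x ∈ A <;> simp [hA, hx])

theorem indicator_rpow_le {T : Set α} (hT : MeasurableSet T) (hTf : μ T ≠ ⊤) {b c K : ℝ}
    (hb : 0 < b) (hbc : b ≤ c) (hK : 0 < K) (hu : MemLp u (ENNReal.ofReal c) μ) :
    ∫ x, |T.indicator u x| ^ b ∂μ ≤ K ^ b * μ.real T + K ^ (b - c) * ∫ x, |u x| ^ c ∂μ := by
  have i1 : Integrable (T.indicator fun _ => K ^ b) μ :=
    (integrableOn_const hTf).integrable_indicator hT
  have i2 := (integrable_rpow (hb.trans_le hbc) hu).const_mul (K ^ (b - c))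
  have h1 : ∫ x, |T.indicator u x| ^ b ∂μ ≤
      ∫ x, (T.indicator (fun _ => K ^ b) x + K ^ (b - c) * |u x| ^ c) ∂μ := by
    refine integral_mono_of_nonneg (Eventually.of_forall fun _ => by positivity) (i1.add i2)
      (Eventually.of_forall fun x => ?_)
    by_cases hx : x ∈ T
    · have := rpow_le_add (a := 0) hK (abs_nonneg (u x)) le_rfl hb.le hbc
      simpa [hx] using this
    · simp only [hx, not_false_eq_true, indicator_of_notMem, abs_zero, Real.zero_rpow hb.ne',
        zero_add]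
      positivity
  rw [integral_add i1 i2, integral_indicator hT, integral_const_mul] at h1
  simpa [mul_comm] using h1

theorem parts_le (hq : 0 < q) {A B : Set α} (hA : MeasurableSet A) (hB : MeasurableSet B)
    (hAB : Disjoint A B) (hu : MemLp u (ENNReal.ofReal q) μ) :
    lqNorm μ q (A.indicator u) ^ q + lqNorm μ q (B.indicator u) ^ q ≤ lqNorm μ q u ^ q := by
  have i1 := integrable_rpow hq (hu.indicator hA)
  have i2 := integrable_rpow hq (hu.indicator hB)
  rw [lqNorm_rpow hq, lqNorm_rpow hq, lqNorm_rpow hq, ← integral_add i1 i2]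
  refine integral_mono (i1.add i2) (integrable_rpow hq hu) fun x => ?_
  by_cases hx : x ∈ A
  · simp [hx, disjoint_left.1 hAB hx, hq.ne']
  · by_cases hx' : x ∈ B
    · simp [hx, hx', hq.ne']
    · simp only [hx, hx', not_false_eq_true, indicator_of_notMem, abs_zero, Real.zero_rpow hq.ne',
        add_zero]
      positivity

theorem le_parts (hq : 0 < q) {A B T : Set α} (hA : MeasurableSet A) (hB : MeasurableSet B)
    (hT : MeasurableSet T) (hu : MemLp u (ENNReal.ofReal q) μ)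
    (h : ∀ x, u x ≠ 0 → x ∈ A ∪ B ∪ T) :
    lqNorm μ q u ^ q ≤ lqNorm μ q (A.indicator u) ^ q + lqNorm μ q (B.indicator u) ^ q +
      lqNorm μ q (T.indicator u) ^ q := by
  have i1 := integrable_rpow hq (hu.indicator hA)
  have i2 := integrable_rpow hq (hu.indicator hB)
  have i3 := integrable_rpow hq (hu.indicator hT)
  have i4 : Integrable (fun x => |A.indicator u x| ^ q + |B.indicator u x| ^ q) μ := i1.add i2
  rw [lqNorm_rpow hq, lqNorm_rpow hq, lqNorm_rpow hq, lqNorm_rpow hq, ← integral_add i1 i2,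
    ← integral_add i4 i3]
  refine integral_mono (integrable_rpow hq hu) (i4.add i3) fun x => ?_
  have p1 : 0 ≤ |A.indicator u x| ^ q := by positivity
  have p2 : 0 ≤ |B.indicator u x| ^ q := by positivity
  have p3 : 0 ≤ |T.indicator u x| ^ q := by positivity
  dsimp only [Pi.add_apply]
  by_cases h0 : u x = 0
  · rw [h0, abs_zero, Real.zero_rpow hq.ne']; positivity
  · rcases h x h0 with (hx | hx) | hx
    · rw [indicator_of_mem hx]; linarith
    · rw [indicator_of_mem hx]; linarith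
    · rw [indicator_of_mem hx]; linarith

end Parts

variable {E : Type} [NormedAddCommGroup E] [InnerProductSpace ℝ E] [CompleteSpace E]

theorem ims_pointwise {θ φ : E → ℝ} (hθ : Differentiable ℝ θ) (hφ : Differentiable ℝ φ) (x : E) :
    ‖gradient (fun x => Real.cos (θ x) * φ x) x‖ ^ 2 +
      ‖gradient (fun x => Real.sin (θ x) * φ x) x‖ ^ 2 =
      ‖gradient φ x‖ ^ 2 + φ x ^ 2 * ‖gradient θ x‖ ^ 2 := by
  rw [gradient_mul' hθ.cos hφ, gradient_mul' hθ.sin hφ,
    gradient_comp' hθ Real.differentiable_cos, gradient_comp' hθ Real.differentiable_sin,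
    Real.deriv_cos, Real.deriv_sin, norm_add_sq_real, norm_add_sq_real]
  simp only [norm_smul, mul_pow, Real.norm_eq_abs, sq_abs, inner_smul_left, inner_smul_right,
    conj_trivial, neg_sq]
  have := Real.sin_sq_add_cos_sq (θ x)
  linear_combination (‖gradient φ x‖ ^ 2 + φ x ^ 2 * ‖gradient θ x‖ ^ 2) * this

theorem exists_angle {e : E} (he : ‖e‖ = 1) :
    ∃ (θ : E → ℝ) (L : ℝ), 0 ≤ L ∧ ContDiff ℝ ∞ θ ∧ (∀ x, inner ℝ e x ≤ 0 → θ x = 0) ∧
      (∀ x, 1 ≤ inner ℝ e x → θ x = Real.pi / 2) ∧ (∀ x, ‖gradient θ x‖ ^ 2 ≤ L) ∧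
      ∀ x, inner ℝ e x ∉ Icc (0 : ℝ) 1 → gradient θ x = 0 := by
  let h : ℝ → ℝ := fun t => Real.pi / 2 * Real.smoothTransition t
  have hh : ContDiff ℝ ∞ h := contDiff_const.mul Real.smoothTransition.contDiff
  have hπ : ContDiff ℝ ∞ fun x : E => inner ℝ e x := (innerSL ℝ e).contDiff
  have hd0 : ∀ t, t ∉ Icc (0 : ℝ) 1 → deriv h t = 0 := by
    intro t ht
    rw [mem_Icc, not_and_or, not_le, not_le] at ht
    rcases ht with ht | ht
    · have : h =ᶠ[𝓝 t] fun _ => 0 := (gt_mem_nhds ht).mono fun s hs => by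
        simp only [h, Real.smoothTransition.zero_of_nonpos hs.le, mul_zero]
      rw [this.deriv_eq, deriv_const]
    · have : h =ᶠ[𝓝 t] fun _ => Real.pi / 2 := (lt_mem_nhds ht).mono fun s hs => by
        simp only [h, Real.smoothTransition.one_of_one_le hs.le, mul_one]
      rw [this.deriv_eq, deriv_const]
  obtain ⟨C, hC⟩ := (isCompact_Icc (a := (0 : ℝ)) (b := 1)).exists_bound_of_continuousOn
    (hh.continuous_deriv (by simp)).continuousOn
  have hg : ∀ x, gradient (fun x => h (inner ℝ e x)) x =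
      deriv h (inner ℝ e x) • gradient (fun x : E => inner ℝ e x) x :=
    gradient_comp' (hπ.differentiable (by simp)) (hh.differentiable (by simp))
  have hn : ∀ x, ‖gradient (fun x : E => inner ℝ e x) x‖ = 1 := fun x => by
    rw [norm_gradient, show (fun x : E => inner ℝ e x) = innerSL ℝ e from rfl,
      ContinuousLinearMap.fderiv, innerSL_apply_norm, he]
  refine ⟨fun x => h (inner ℝ e x), C ^ 2, by positivity, hh.comp hπ, fun x hx => ?_,
    fun x hx => ?_, fun x => ?_, fun x hx => ?_⟩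
  · simp only [h, Real.smoothTransition.zero_of_nonpos hx, mul_zero]
  · simp only [h, Real.smoothTransition.one_of_one_le hx, mul_one]
  · rw [hg, norm_smul, hn, mul_one]
    by_cases hx : inner ℝ e x ∈ Icc (0 : ℝ) 1
    · exact pow_le_pow_left₀ (norm_nonneg _) (hC _ hx) 2
    · rw [hd0 _ hx]; simpa using sq_nonneg C
  · rw [hg, hd0 _ hx, zero_smul]

variable [MeasurableSpace E] [BorelSpace E] [FiniteDimensional ℝ E]
  {μ : Measure E} [μ.IsAddHaarMeasure] {q : ℝ}

theorem split_test {e : E} (he : ‖e‖ = 1) : ∃ L : ℝ, 0 ≤ L ∧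
    ∀ (Ω Ω₁ Ω₂ T : Set E) (m₁ m₂ K : ℝ), 2 ≤ q → (∀ x ∈ Ω, inner ℝ e x ≤ 1 → x ∈ Ω₁) →
      (∀ x ∈ Ω, 0 ≤ inner ℝ e x → x ∈ Ω₂) → (∀ x ∈ Ω, inner ℝ e x ∈ Icc (0 : ℝ) 1 → x ∈ T) →
      MeasurableSet T → μ T ≠ ⊤ → Good μ Ω₁ q m₁ → Good μ Ω₂ q m₂ → 0 ≤ m₁ → 0 ≤ m₂ → 0 < K →
      ∀ φ : E → ℝ, IsTest Ω φ →
        m₁ * lqNorm μ q ({x | inner ℝ e x < 0}.indicator φ) ^ 2 +
          m₂ * lqNorm μ q ({x | 1 < inner ℝ e x}.indicator φ) ^ 2 ≤
        dir μ φ + L * (K ^ 2 * μ.real T + K ^ (2 - q) * lqNorm μ q φ ^ q) := by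
  obtain ⟨θ, L, hL, hθ, h0, h1, hb, hz⟩ := exists_angle he
  refine ⟨L, hL, fun Ω Ω₁ Ω₂ T m₁ m₂ K hq hΩ₁ hΩ₂ hΩT hT hTf g₁ g₂ hm₁ hm₂ hK φ hφ => ?_⟩
  have hq0 : 0 < q := by linarith
  have hπ : Continuous fun x : E => inner ℝ e x := by fun_prop
  have t1 := hφ.mul_left hθ.cos
  have t2 := hφ.mul_left hθ.sin
  have s1 : IsTest Ω₁ fun x => Real.cos (θ x) * φ x := by
    refine ⟨t1.1, t1.2.1, fun x hx => hΩ₁ x (t1.2.2 hx) ?_⟩
    refine closure_minimal (t := {x | inner ℝ e x ≤ 1}) ?_ (isClosed_le hπ continuous_const) hx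
    intro y hy
    by_contra hcon
    simp only [mem_ofPred_eq, not_le] at hcon
    exact hy (by simp [h1 y hcon.le])
  have s2 : IsTest Ω₂ fun x => Real.sin (θ x) * φ x := by
    refine ⟨t2.1, t2.2.1, fun x hx => hΩ₂ x (t2.2.2 hx) ?_⟩
    refine closure_minimal (t := {x | 0 ≤ inner ℝ e x}) ?_ (isClosed_le continuous_const hπ) hx
    intro y hy
    by_contra hcon
    simp only [mem_ofPred_eq, not_le] at hcon
    exact hy (by simp [h0 y hcon.le])
  have a1 : lqNorm μ q ({x | inner ℝ e x < 0}.indicator φ) ≤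
      lqNorm μ q fun x => Real.cos (θ x) * φ x := by
    refine lqNorm_mono hq0 (t1.memLp _) (Eventually.of_forall fun x => ?_)
    by_cases hx : inner ℝ e x < 0
    · simp [hx, h0 x hx.le]
    · simp only [mem_ofPred_eq, hx, not_false_eq_true, indicator_of_notMem, abs_zero, abs_nonneg]
  have a2 : lqNorm μ q ({x | 1 < inner ℝ e x}.indicator φ) ≤
      lqNorm μ q fun x => Real.sin (θ x) * φ x := by
    refine lqNorm_mono hq0 (t2.memLp _) (Eventually.of_forall fun x => ?_)
    by_cases hx : 1 < inner ℝ e x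
    · simp [hx, h1 x hx.le]
    · simp only [mem_ofPred_eq, hx, not_false_eq_true, indicator_of_notMem, abs_zero, abs_nonneg]
  have i3 : Integrable (fun x => |T.indicator φ x| ^ (2 : ℝ)) μ :=
    integrable_rpow two_pos ((hφ.memLp _).indicator hT)
  have b1 : dir μ (fun x => Real.cos (θ x) * φ x) + dir μ (fun x => Real.sin (θ x) * φ x) ≤
      dir μ φ + L * ∫ x, |T.indicator φ x| ^ (2 : ℝ) ∂μ := by
    unfold dir
    rw [← integral_add t1.integrable_sq_gradient t2.integrable_sq_gradient, ← integral_const_mul,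
      ← integral_add hφ.integrable_sq_gradient (i3.const_mul L)]
    refine integral_mono (t1.integrable_sq_gradient.add t2.integrable_sq_gradient)
      (hφ.integrable_sq_gradient.add (i3.const_mul L)) fun x => ?_
    dsimp only
    rw [ims_pointwise (hθ.differentiable (by simp)) hφ.differentiable, Real.rpow_two, sq_abs]
    refine add_le_add le_rfl ?_
    by_cases hx : x ∈ T
    · rw [indicator_of_mem hx, mul_comm]
      gcongr
      exact hb x
    · have : φ x ^ 2 * ‖gradient θ x‖ ^ 2 = 0 := by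
        by_cases hxΩ : x ∈ Ω
        · rw [hz x fun H => hx (hΩT x hxΩ H)]; simp
        · rw [hφ.eq_zero hxΩ]; simp
      rw [this]; positivity
  have b2 := indicator_rpow_le hT hTf two_pos hq hK (hφ.memLp (μ := μ) (ENNReal.ofReal q))
  rw [← lqNorm_rpow hq0, Real.rpow_two] at b2
  have c1 := g₁ _ s1
  have c2 := g₂ _ s2
  have d1 := mul_le_mul_of_nonneg_left (pow_le_pow_left₀ (lqNorm_nonneg _) a1 2) hm₁
  have d2 := mul_le_mul_of_nonneg_left (pow_le_pow_left₀ (lqNorm_nonneg _) a2 2) hm₂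
  have d3 := mul_le_mul_of_nonneg_left b2 hL
  linarith

variable {Ω : Set E} [Fact (1 ≤ ENNReal.ofReal q)] (J : W μ Ω →L[ℝ] Lp ℝ (ENNReal.ofReal q) μ)

theorem continuous_part (hq : 0 < q) (hJ : ∀ p, J p =ᵐ[μ] (p : V μ).1) {A : Set E}
    (hA : MeasurableSet A) :
    Continuous fun p : W μ Ω => lqNorm μ q (A.indicator (p : V μ).1) :=
  continuous_contr J hq hJ (isContr_indicator hA)

theorem continuous_lqNorm (hq : 0 < q) (hJ : ∀ p, J p =ᵐ[μ] (p : V μ).1) :
    Continuous fun p : W μ Ω => lqNorm μ q (p : V μ).1 := by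
  simpa using continuous_part J hq hJ MeasurableSet.univ

theorem le_parts_W (hq : 0 < q) (hJ : ∀ p, J p =ᵐ[μ] (p : V μ).1) {A B T : Set E}
    (hA : MeasurableSet A) (hB : MeasurableSet B) (hT : MeasurableSet T) (h : Ω ⊆ A ∪ B ∪ T)
    (p : W μ Ω) :
    lqNorm μ q (p : V μ).1 ^ q ≤ lqNorm μ q (A.indicator (p : V μ).1) ^ q +
      lqNorm μ q (B.indicator (p : V μ).1) ^ q + lqNorm μ q (T.indicator (p : V μ).1) ^ q := by
  revert p
  refine W_induction (isClosed_le ?_ ?_) (fun p φ hφ hp => ?_)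
  · exact (continuous_lqNorm J hq hJ).rpow_const fun _ => Or.inr hq.le
  · exact (((continuous_part J hq hJ hA).rpow_const fun _ => Or.inr hq.le).add
      ((continuous_part J hq hJ hB).rpow_const fun _ => Or.inr hq.le)).add
      ((continuous_part J hq hJ hT).rpow_const fun _ => Or.inr hq.le)
  · rw [lqNorm_congr hp.1, lqNorm_indicator_congr A hp.1, lqNorm_indicator_congr B hp.1,
      lqNorm_indicator_congr T hp.1]
    exact le_parts hq hA hB hT (hφ.memLp _) fun x hx => h (by_contra fun H => hx (hφ.eq_zero H))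

theorem split_W (hq : 0 < q) (hJ : ∀ p, J p =ᵐ[μ] (p : V μ).1) {A B : Set E}
    (hA : MeasurableSet A) (hB : MeasurableSet B) {m₁ m₂ a b : ℝ}
    (h : ∀ φ : E → ℝ, IsTest Ω φ → m₁ * lqNorm μ q (A.indicator φ) ^ 2 +
      m₂ * lqNorm μ q (B.indicator φ) ^ 2 ≤ dir μ φ + (a + b * lqNorm μ q φ ^ q))
    (p : W μ Ω) :
    m₁ * lqNorm μ q (A.indicator (p : V μ).1) ^ 2 + m₂ * lqNorm μ q (B.indicator (p : V μ).1) ^ 2 ≤
      ‖(p : V μ).2‖ ^ 2 + (a + b * lqNorm μ q (p : V μ).1 ^ q) := by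
  revert p
  refine W_induction (isClosed_le ?_ ?_) (fun p φ hφ hp => ?_)
  · exact (((continuous_part J hq hJ hA).pow 2).const_mul _).add
      (((continuous_part J hq hJ hB).pow 2).const_mul _)
  · refine Continuous.add (by fun_prop) (continuous_const.add (Continuous.const_mul ?_ _))
    exact (continuous_lqNorm J hq hJ).rpow_const fun _ => Or.inr hq.le
  · rw [lqNorm_congr hp.1, lqNorm_indicator_congr A hp.1, lqNorm_indicator_congr B hp.1,
      hp.norm_sq]
    exact h φ hφ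

end Pool.Agent.Lib.MP_eb4995_an
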