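import Mathlib
import Pool.Agent.Lib.MP_eb4995_an.Compact
import Pool.Agent.Lib.MP_eb4995_an.Minimize
import Pool.Agent.Lib.MP_eb4995_an.Scaling
import Pool.Agent.Lib.MP_eb4995_an.Split

/-!
An abstract dumbbell has a `q`-eigenvalue strictly between the first two
Lusternik-Schnirelman values.
-/

set_option linter.unusedSectionVars false

namespace Pool.Agent.Lib.MP_eb4995_an

open MeasureTheory Set Filter Topology Metric Module
open scoped ContDiff ENNReal NNReal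

theorem sq_ge_rpow {q a s : ℝ} (hq : 2 ≤ q) (ha : 0 ≤ a) (hs : 0 < s) (h : a ^ q ≤ s) :
    s⁻¹ ^ (1 - 2 / q) * a ^ q ≤ a ^ 2 := by
  have hq0 : 0 < q := by linarith
  have hβ : 0 ≤ 1 - 2 / q := by rw [sub_nonneg, div_le_one hq0]; exact hq
  have h1 : a ^ 2 = (a ^ q) ^ (2 / q) := by
    rw [← Real.rpow_mul ha, mul_div_cancel₀ _ hq0.ne', Real.rpow_two]
  have ht : 0 ≤ a ^ q := Real.rpow_nonneg ha q
  rw [h1]
  generalize a ^ q = t at h ht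
  have h2 : t = t ^ (1 - 2 / q) * t ^ (2 / q) := by
    rw [← Real.rpow_add' ht (by simp), sub_add_cancel, Real.rpow_one]
  have h3 : s⁻¹ ^ (1 - 2 / q) * t ^ (1 - 2 / q) ≤ 1 := by
    rw [← Real.mul_rpow (by positivity) ht]
    exact Real.rpow_le_one (by positivity) (by rw [inv_mul_le_iff₀ hs]; linarith) hβ
  calc s⁻¹ ^ (1 - 2 / q) * t = (s⁻¹ ^ (1 - 2 / q) * t ^ (1 - 2 / q)) * t ^ (2 / q) := by
        rw [mul_assoc, ← h2]
    _ ≤ t ^ (2 / q) := mul_le_of_le_one_left (by positivity) h3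

theorem exists_threshold {a s A B η : ℝ} (hs : s < 0) (hη : 0 < η) (hA : 0 ≤ A) :
    ∃ K ρ : ℝ, 0 < K ∧ 0 < ρ ∧ ∀ t, t ≤ ρ → A * (K ^ a * t + K ^ s * B) ≤ η := by
  have h1 : Tendsto (fun K : ℝ => A * (K ^ (-(-s)) * B)) atTop (𝓝 (A * (0 * B))) :=
    ((tendsto_rpow_neg_atTop (neg_pos.2 hs)).mul_const _).const_mul _
  rw [zero_mul, mul_zero, neg_neg] at h1
  obtain ⟨K, hK, hK0⟩ :=
    ((h1.eventually (gt_mem_nhds (half_pos hη))).and (eventually_gt_atTop 0)).exists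
  refine ⟨K, η / 2 / (A * K ^ a + 1), hK0, by positivity, fun t ht => ?_⟩
  have h2 : 0 ≤ A * K ^ a := by positivity
  have h3 : A * K ^ a * t ≤ η / 2 := by
    refine (mul_le_mul_of_nonneg_left ht h2).trans ?_
    rw [mul_div_assoc', div_le_iff₀ (by positivity)]
    nlinarith
  linarith

variable {E : Type} [NormedAddCommGroup E] [InnerProductSpace ℝ E] [CompleteSpace E]
  [MeasurableSpace E] [BorelSpace E] [FiniteDimensional ℝ E]
  {μ : Measure E} [μ.IsAddHaarMeasure] {Ω : Set E} {q : ℝ}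

theorem lamLS_one_le {p : V μ} (hp : p ∈ W μ Ω) (h1 : lqNorm μ q p.1 = 1) :
    lamLS μ Ω q 1 ≤ (‖p.2‖ ^ 2 : ℝ) := by
  refine iInf_le_of_le ({p, -p} : Set (V μ)) (iInf_le_of_le
    ⟨⟨p, Or.inl rfl⟩, ((finite_singleton _).insert _).isCompact, ?_, ?_, one_le_genus _⟩ ?_)
  · rintro _ (rfl | rfl)
    · exact ⟨hp, h1⟩
    · refine ⟨mem_sobolev.2 ((W μ Ω).neg_mem hp), ?_⟩
      have h2 : lqNorm μ q (-p.1 : Lp ℝ 2 μ) = lqNorm μ q p.1 := by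
        rw [lqNorm_congr (Lp.coeFn_neg p.1)]
        simp [lqNorm]
      exact h2.trans h1
  · rintro _ (rfl | rfl)
    · exact Or.inr rfl
    · exact Or.inl (neg_neg p)
  · refine iSup₂_le ?_
    rintro _ (rfl | rfl)
    · rw [dirichlet_eq]
    · rw [dirichlet_eq, Prod.snd_neg, norm_neg]

variable [Fact (1 ≤ ENNReal.ofReal q)]

theorem le_lamLS (J : W μ Ω →L[ℝ] Lp ℝ (ENNReal.ofReal q) μ) (hq : 0 < q)
    (hJ : ∀ p, J p =ᵐ[μ] (p : V μ).1) {m : ℝ} (hm : Good μ Ω q m) {k : ℕ} (hk : 2 ≤ k) :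
    ((m * 2 ^ (1 - 2 / q) : ℝ) : EReal) ≤ lamLS μ Ω q k := by
  refine le_iInf₂ fun F hF => ?_
  obtain ⟨-, -, h1, -, h2⟩ := hF
  obtain ⟨p, hp, h3⟩ := genus_bound J hq hJ hm (F := F) (fun p hp => h1 hp)
    (le_trans (by exact_mod_cast hk) h2)
  refine le_iSup₂_of_le p hp ?_
  rw [dirichlet_eq]
  exact_mod_cast h3

theorem mem_spec_of_min (J : W μ Ω →L[ℝ] Lp ℝ (ENNReal.ofReal q) μ) (hq : 1 < q)
    (hJ : ∀ p, J p =ᵐ[μ] (p : V μ).1) {O : Set (Lp ℝ (ENNReal.ofReal q) μ)} (hO : IsOpen O)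
    {p : W μ Ω} (h1 : ‖J p‖ = 1) (h2 : J p ∈ O)
    (hmin : ∀ p' : W μ Ω, ‖J p'‖ = 1 → J p' ∈ O → ‖(p : V μ).2‖ ^ 2 ≤ ‖(p' : V μ).2‖ ^ 2) :
    ‖(p : V μ).2‖ ^ 2 ∈ spec μ Ω q := by
  have hq0 : 0 < q := by linarith
  have h3 : lqNorm μ q (p : V μ).1 = 1 := by
    rw [← lqNorm_congr (hJ p), ← norm_eq_lqNorm hq0, h1]
  refine ⟨(p : V μ), p.2, fun h0 => ?_, fun φ hφ => ?_⟩
  · have h4 : (p : V μ).1 = 0 := h0
    rw [h4, lqNorm_congr (Lp.coeFn_zero _ _ _)] at h3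
    simp [lqNorm, hq0.ne'] at h3
  · obtain ⟨h, hh⟩ := hφ.exists_rep μ
    have h5 := euler_lagrange ((ContinuousLinearMap.snd ℝ _ _).comp (W μ Ω).subtypeL) J hO h1 h2
      hmin h (hasDerivAt_norm_sq_Lp hq (J p) (J h) h1)
    have h6 : ∫ x, |J p x| ^ (q - 2) * J p x * J h x ∂μ =
        ∫ x, |(p : V μ).1 x| ^ (q - 2) * (p : V μ).1 x * φ x ∂μ := by
      refine integral_congr_ae ?_
      filter_upwards [hJ p, hJ h, hh.1] with x e1 e2 e3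
      rw [e1, e2, e3]
    have h7 : inner ℝ (p : V μ).2 (h : V μ).2 =
        ∫ x, inner ℝ ((p : V μ).2 x) (gradient φ x) ∂μ := by
      rw [L2.inner_def]
      refine integral_congr_ae ?_
      filter_upwards [hh.2] with x e1
      rw [e1]
    change ∫ x, inner ℝ ((p : V μ).2 x) (gradient φ x) ∂μ = ‖(p : V μ).2‖ ^ 2 *
      lqNorm μ q (p : V μ).1 ^ (2 - q) * ∫ x, |(p : V μ).1 x| ^ (q - 2) * (p : V μ).1 x * φ x ∂μ
    rw [h3, Real.one_rpow, mul_one, ← h6, ← h7]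
    change 2 * inner ℝ (p : V μ).2 (h : V μ).2 = ‖(p : V μ).2‖ ^ 2 * _ at h5
    linarith

theorem dumbbell (hN : 2 ≤ finrank ℝ E) (hq : 2 < q)
    (hq' : ((finrank ℝ E : ℝ) - 2) * q < 2 * finrank ℝ E) {e : E} (he : ‖e‖ = 1) {Bg : Set E}
    (hBg : Bornology.IsBounded Bg) {up κ : ℝ} (hκ1 : 1 < κ) (hκ2 : κ < (3 / 4)⁻¹ ^ (1 - 2 / q)) :
    ∃ ρ : ℝ, 0 < ρ ∧ ∀ (Ω₁ Ω₂ T : Set E) (m : ℝ), IsOpen Ω₁ → IsOpen Ω₂ → Ω₁ ∪ Ω₂ ⊆ Bg →
      (∀ x ∈ Ω₂, inner ℝ e x ≤ 1 → x ∈ Ω₁ ∩ T) → (∀ x ∈ Ω₁, 0 ≤ inner ℝ e x → x ∈ Ω₂ ∩ T) →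
      MeasurableSet T → μ T ≠ ⊤ → μ.real T ≤ ρ → IsLam μ Ω₁ q m → IsLam μ Ω₂ q (κ * m) →
      m ≤ up → ∃ lam ∈ spec μ (Ω₁ ∪ Ω₂) q, lam ∉ specLS μ (Ω₁ ∪ Ω₂) q := by
  have hq0 : 0 < q := by linarith
  set c : ℝ := (3 / 4)⁻¹ ^ (1 - 2 / q) with hc
  have hc1 : 1 < c := hκ1.trans hκ2
  have hβ : 0 ≤ 1 - 2 / q := by rw [sub_nonneg, div_le_one hq0]; exact hq.le
  have hc2 : c ≤ 2 ^ (1 - 2 / q) := Real.rpow_le_rpow (by norm_num) (by norm_num) hβ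
  obtain ⟨δ, hδ0, hδ1, hδ2, hδ3⟩ : ∃ δ : ℝ, 0 < δ ∧ δ < 1 / 2 ∧ 4 * δ < κ - 1 ∧
      κ < c * (1 - 2 * δ) := by
    have e1 : ∀ᶠ δ : ℝ in 𝓝 0, δ < 1 / 2 := gt_mem_nhds (by norm_num)
    have e2 : ∀ᶠ δ : ℝ in 𝓝 0, 4 * δ < κ - 1 :=
      ContinuousAt.eventually_lt (by fun_prop) continuousAt_const (by linarith)
    have e3 : ∀ᶠ δ : ℝ in 𝓝 0, κ < c * (1 - 2 * δ) :=
      ContinuousAt.eventually_lt continuousAt_const (by fun_prop) (by linarith)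
    exact ((eventually_mem_nhdsWithin (a := (0 : ℝ)) (s := Ioi 0)).and
      (nhdsWithin_le_nhds (e1.and (e2.and e3)))).exists
  obtain ⟨r, hqr, hr'⟩ : ∃ r, q < r ∧ ((finrank ℝ E : ℝ) - 2) * r < 2 * finrank ℝ E := by
    have : ∀ᶠ r in 𝓝[>] q, ((finrank ℝ E : ℝ) - 2) * r < 2 * finrank ℝ E :=
      nhdsWithin_le_nhds ((continuous_const_mul _).continuousAt.eventually_lt
        continuousAt_const hq')
    exact (eventually_mem_nhdsWithin.and this).exists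
  have hr0 : 0 < r := by linarith
  obtain ⟨C, hC0, hC⟩ := sobolev_W (μ := μ) hBg hN (hq.le.trans hqr.le) hr'
  obtain ⟨low, hlow0, hlow⟩ := exists_good_pos (μ := μ) hBg hN hq.le hq'
  obtain ⟨L, hL0, hL⟩ := split_test (μ := μ) (q := q) he
  obtain ⟨K₁, ρ₁, hK₁, hρ₁, H₁⟩ := exists_threshold (a := q) (s := q - r) (A := 1)
    (B := (C * (c * up + 1)) ^ r) (by linarith) hδ0 zero_le_one
  obtain ⟨K₂, ρ₂, hK₂, hρ₂, H₂⟩ := exists_threshold (a := 2) (s := 2 - q) (A := L)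
    (B := 1) (by linarith) (mul_pos hδ0 hlow0) hL0
  refine ⟨min ρ₁ ρ₂, lt_min hρ₁ hρ₂,
    fun Ω₁ Ω₂ T m ho₁ ho₂ hsub g₂ g₁ hT hTf hTρ l₁ l₂ hup => ?_⟩
  set Ω := Ω₁ ∪ Ω₂ with hΩ
  have hΩb : Bornology.IsBounded Ω := hBg.subset hsub
  have hΩo : IsOpen Ω := ho₁.union ho₂
  obtain ⟨J, hJ⟩ := exists_embedding (μ := μ) hΩb hN hq.le hq'
  have hlm : low ≤ m := l₁.le (hlow.mono (subset_union_left.trans hsub))
  have hm0 : 0 < m := hlow0.trans_le hlm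
  set A : Set E := {x | inner ℝ e x < 0} with hA
  set B : Set E := {x | 1 < inner ℝ e x} with hB
  have hπ : Continuous fun x : E => inner ℝ e x := by fun_prop
  have hAm : MeasurableSet A := (isOpen_lt hπ continuous_const).measurableSet
  have hBm : MeasurableSet B := (isOpen_lt continuous_const hπ).measurableSet
  have hAB : Disjoint A B := disjoint_left.2 fun x hx hx' => by
    simp only [hA, hB, mem_ofPred_eq] at hx hx'; linarith
  have hmid : ∀ x ∈ Ω, inner ℝ e x ∈ Icc (0 : ℝ) 1 → x ∈ T := by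
    rintro x (hx | hx) h
    exacts [(g₁ x hx h.1).2, (g₂ x hx h.2).2]
  have hcov : Ω ⊆ A ∪ B ∪ T := fun x hx => by
    by_cases h1 : inner ℝ e x < 0
    · exact Or.inl (Or.inl h1)
    · by_cases h2 : 1 < inner ℝ e x
      · exact Or.inl (Or.inr h2)
      · exact Or.inr (hmid x hx ⟨not_lt.1 h1, not_lt.1 h2⟩)
  set m' : ℝ := c * (1 - 2 * δ) * m with hm'
  have hnorm : ∀ p, ‖J p‖ = lqNorm μ q (p : V μ).1 := fun p => by
    rw [norm_eq_lqNorm hq0, lqNorm_congr (hJ p)]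
  have hmem : ∀ p : W μ Ω, MemLp (p : V μ).1 (ENNReal.ofReal q) μ := fun p =>
    (Lp.memLp (J p)).ae_eq (hJ p)
  have hthin : ∀ p : W μ Ω, ‖(p : V μ).2‖ ^ 2 < m' →
      lqNorm μ q (T.indicator (p : V μ).1) ^ q ≤ δ := by
    intro p hp
    obtain ⟨h1, h2⟩ := hC p (W_mono hsub p.2)
    have h3 := indicator_rpow_le hT hTf hq0 hqr.le hK₁ h1
    have h4 : ‖(p : V μ).2‖ ≤ c * up + 1 := by
      have : m' ≤ c * up := by
        have : (1 - 2 * δ) * m ≤ up := by nlinarith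
        rw [hm', mul_assoc]; gcongr
      nlinarith [norm_nonneg (p : V μ).2]
    have h5 : ∫ x, |(p : V μ).1 x| ^ r ∂μ ≤ (C * (c * up + 1)) ^ r := by
      rw [← lqNorm_rpow hr0]
      exact Real.rpow_le_rpow (lqNorm_nonneg _) (h2.trans (by gcongr)) hr0.le
    have h6 := H₁ _ (hTρ.trans (min_le_left _ _))
    rw [lqNorm_rpow hq0]
    have h7 := mul_le_mul_of_nonneg_left h5 (Real.rpow_nonneg hK₁.le (q - r))
    linarith
  have hkey : ∀ p : W μ Ω, ‖J p‖ = 1 → ‖(p : V μ).2‖ ^ 2 < m' → ∃ a b : ℝ, 0 ≤ a ∧ 0 ≤ b ∧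
      b = lqNorm μ q (B.indicator (p : V μ).1) ∧ a ^ q + b ^ q ≤ 1 ∧ 1 - δ ≤ a ^ q + b ^ q ∧
      m * a ^ 2 + κ * m * b ^ 2 ≤ ‖(p : V μ).2‖ ^ 2 + δ * m := by
    intro p h1 h2
    rw [hnorm] at h1
    refine ⟨lqNorm μ q (A.indicator (p : V μ).1), _, lqNorm_nonneg _, lqNorm_nonneg _, rfl,
      ?_, ?_, ?_⟩
    · have := parts_le hq0 hAm hBm hAB (hmem p)
      rwa [h1, Real.one_rpow] at this
    · have := le_parts_W J hq0 hJ hAm hBm hT hcov p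
      rw [h1, Real.one_rpow] at this
      linarith [hthin p h2]
    · have h3 := split_W J hq0 hJ hAm hBm (m₁ := m) (m₂ := κ * m)
        (a := L * (K₂ ^ 2 * μ.real T)) (b := L * K₂ ^ (2 - q)) (fun φ hφ => by
          have := hL Ω Ω₁ Ω₂ T m (κ * m) K₂ hq.le
            (by rintro x (hx | hx) h; exacts [hx, (g₂ x hx h).1])
            (by rintro x (hx | hx) h; exacts [(g₁ x hx h).1, hx]) hmid hT hTf l₁.1 l₂.1 hm0.le
            (by positivity) hK₂ φ hφ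
          linarith) p
      have h4 := H₂ _ (hTρ.trans (min_le_right _ _))
      rw [h1, Real.one_rpow] at h3
      rw [Real.rpow_two] at h4
      have : δ * low ≤ δ * m := by gcongr
      linarith
  have hsq : ∀ a : ℝ, 0 ≤ a → a ^ q ≤ 1 → a ^ q ≤ a ^ 2 := fun a ha h => by
    simpa using sq_ge_rpow hq.le ha one_pos h
  have hsq' : ∀ a : ℝ, 0 ≤ a → a ^ q ≤ 3 / 4 → c * a ^ q ≤ a ^ 2 := fun a ha h =>
    sq_ge_rpow hq.le ha (by norm_num) h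
  have hgood : Good μ Ω q ((1 - 2 * δ) * m) := by
    refine good_of_normalized hq0 fun φ hφ h1 => ?_
    obtain ⟨p, hp⟩ := hφ.exists_rep μ
    rw [← hp.norm_sq]
    rcases lt_or_ge (‖(p : V μ).2‖ ^ 2) m' with h2 | h2
    · obtain ⟨a, b, ha, hb, -, h3, h4, h5⟩ := hkey p (by rw [hnorm, lqNorm_congr hp.1, h1]) h2
      have pa := Real.rpow_nonneg ha q
      have pb := Real.rpow_nonneg hb q
      have h6 := hsq a ha (by linarith)
      have h7 := hsq b hb (by linarith)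
      have h8 : m * b ^ 2 ≤ κ * m * b ^ 2 := by
        have : 0 ≤ m * b ^ 2 := by positivity
        nlinarith
      nlinarith
    · refine le_trans ?_ h2
      have : 0 ≤ (1 - 2 * δ) * m := by nlinarith
      rw [hm', mul_assoc]
      nlinarith
  let t₂ : Lp ℝ (ENNReal.ofReal q) μ → ℝ := fun v => lqNorm μ q (B.indicator v) ^ q
  have ht₂ : Continuous t₂ :=
    ((isContr_indicator hBm).continuous hq0).rpow_const fun _ => Or.inr hq0.le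
  have ht₂J : ∀ p, t₂ (J p) = lqNorm μ q (B.indicator (p : V μ).1) ^ q := fun p => by
    simp only [t₂, lqNorm_indicator_congr B (hJ p)]
  obtain ⟨p₀, hp₀1, hp₀2, hp₀3⟩ : ∃ p : W μ Ω, ‖J p‖ = 1 ∧ 1 / 2 < t₂ (J p) ∧
      ‖(p : V μ).2‖ ^ 2 < m' := by
    obtain ⟨φ, hφ, h1, h2⟩ := l₂.2 (m' - κ * m) (by rw [hm']; nlinarith)
    obtain ⟨p, hp⟩ := (hφ.mono (subset_union_right : Ω₂ ⊆ Ω)).exists_rep μ
    have h3 : ‖(p : V μ).2‖ ^ 2 < m' := by rw [hp.norm_sq]; linarith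
    refine ⟨p, by rw [hnorm, lqNorm_congr hp.1, h1], ?_, h3⟩
    have h4 := le_parts hq0 MeasurableSet.empty hBm hT (hφ.memLp (μ := μ) _) (fun x hx => by
      have hx₂ : x ∈ Ω₂ := by_contra fun H => hx (hφ.eq_zero H)
      by_cases h : 1 < inner ℝ e x
      · exact Or.inl (Or.inr h)
      · exact Or.inr (g₂ x hx₂ (not_lt.1 h)).2)
    have h5 := hthin p h3
    rw [lqNorm_indicator_congr T hp.1] at h5
    rw [h1, Real.one_rpow, lqNorm_rpow hq0 (indicator ∅ φ)] at h4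
    simp only [indicator_empty, abs_zero, Real.zero_rpow hq0.ne', integral_zero] at h4
    rw [ht₂J, lqNorm_indicator_congr B hp.1]
    linarith
  obtain ⟨Cp, -, hCp⟩ := poincare_W (μ := μ) hΩb hN
  obtain ⟨p, hp1, hp2, hp3⟩ := exists_minimizer
    ((ContinuousLinearMap.snd ℝ _ _).comp (W μ Ω).subtypeL) J hCp
    (rellich hΩb hΩo.measurableSet hN hq.le hq' J hJ) (O := {v | 1 / 2 < t₂ v})
    (F := {v | 3 / 4 ≤ t₂ v}) (isOpen_lt continuous_const ht₂) (isClosed_le continuous_const ht₂)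
    (fun v hv => by simp only [mem_ofPred_eq] at hv ⊢; linarith) (m' := m')
    (fun p h1 h2 h3 => by
      change ‖(p : V μ).2‖ ^ 2 < m' at h3
      obtain ⟨a, b, ha, hb, hb', h4, h5, h6⟩ := hkey p h1 h3
      simp only [mem_ofPred_eq, ht₂J, ← hb'] at h2 ⊢
      by_contra hcon
      have h7 := hsq' a ha (by linarith)
      have h8 := hsq' b hb (by linarith)
      have h9 : m * b ^ 2 ≤ κ * m * b ^ 2 := by
        have : 0 ≤ m * b ^ 2 := by positivity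
        nlinarith
      have h10 : c * (1 - δ) ≤ a ^ 2 + b ^ 2 := by nlinarith
      have h11 : m * (c * (1 - δ)) ≤ m * (a ^ 2 + b ^ 2) := by gcongr
      have h12 : δ * m ≤ c * (δ * m) := le_mul_of_one_le_left (by positivity) hc1.le
      rw [hm'] at h3
      nlinarith)
    ⟨p₀, hp₀1, hp₀2, hp₀3⟩
  have hlt : ‖(p : V μ).2‖ ^ 2 < m' := lt_of_le_of_lt (hp3 p₀ hp₀1 hp₀2) hp₀3
  have hgt : m < ‖(p : V μ).2‖ ^ 2 := by
    obtain ⟨a, b, ha, hb, hb', h4, h5, h6⟩ := hkey p hp1 hlt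
    simp only [mem_ofPred_eq, ht₂J, ← hb'] at hp2
    have pa := Real.rpow_nonneg ha q
    have h7 := hsq a ha (by linarith)
    have h8 := hsq b hb (by linarith)
    have h9 : 1 + δ < a ^ 2 + κ * b ^ 2 := by nlinarith
    have h10 : m * (1 + δ) < m * (a ^ 2 + κ * b ^ 2) := by gcongr
    nlinarith
  refine ⟨‖(p : V μ).2‖ ^ 2, mem_spec_of_min J (by linarith) hJ (isOpen_lt continuous_const ht₂)
    hp1 hp2 hp3, ?_⟩
  rintro ⟨k, hk, hlam⟩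
  rcases hk.eq_or_lt with rfl | hk
  · obtain ⟨φ, hφ, h1, h2⟩ := l₁.2 _ (sub_pos.2 hgt)
    obtain ⟨p', hp'⟩ := (hφ.mono (subset_union_left : Ω₁ ⊆ Ω)).exists_rep μ
    have h3 := lamLS_one_le (q := q) p'.2 (by rw [lqNorm_congr hp'.1, h1])
    rw [← hlam, EReal.coe_le_coe_iff, hp'.norm_sq] at h3
    linarith
  · have h3 := le_lamLS J hq0 hJ hgood hk
    rw [← hlam, EReal.coe_le_coe_iff] at h3
    have : 0 ≤ (1 - 2 * δ) * m := by nlinarith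
    have h4 : (1 - 2 * δ) * m * c ≤ (1 - 2 * δ) * m * 2 ^ (1 - 2 / q) := by gcongr
    rw [hm'] at hlt
    linarith

end Pool.Agent.Lib.MP_eb4995_an
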