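import Mathlib
import Pool.Agent.Lib.MP_eb4995_an.Main

/-!
A concrete connected dumbbell.
-/

set_option linter.unusedSectionVars false

namespace Pool.Agent.Lib.MP_eb4995_an

open MeasureTheory Set Filter Topology Metric Module
open scoped ContDiff ENNReal NNReal

variable {E : Type} [NormedAddCommGroup E] [InnerProductSpace ℝ E]

/-- An open cylinder with axis `e`. -/
def tube (e : E) (a b w : ℝ) : Set E :=
  {x | a < inner ℝ e x ∧ inner ℝ e x < b ∧ ‖x - inner ℝ e x • e‖ < w}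

theorem isOpen_tube (e : E) (a b w : ℝ) : IsOpen (tube e a b w) := by
  have h1 : Continuous fun x : E => inner ℝ e x := by fun_prop
  have h2 : Continuous fun x : E => ‖x - inner ℝ e x • e‖ := by fun_prop
  exact (isOpen_lt continuous_const h1).inter
    ((isOpen_lt h1 continuous_const).inter (isOpen_lt h2 continuous_const))

theorem convex_tube (e : E) (a b w : ℝ) : Convex ℝ (tube e a b w) := by
  let l : E →ₗ[ℝ] ℝ := (innerSL ℝ e).toLinearMap
  have h1 : Convex ℝ (l ⁻¹' Ioi a) := (convex_Ioi a).linear_preimage l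
  have h2 : Convex ℝ (l ⁻¹' Iio b) := (convex_Iio b).linear_preimage l
  have h3 : Convex ℝ ((LinearMap.id - l.smulRight e : E →ₗ[ℝ] E) ⁻¹' ball 0 w) :=
    (convex_ball 0 w).linear_preimage _
  have : tube e a b w = l ⁻¹' Ioi a ∩ (l ⁻¹' Iio b ∩
      (LinearMap.id - l.smulRight e : E →ₗ[ℝ] E) ⁻¹' ball 0 w) := by
    ext x
    simp [tube, l]
  rw [this]
  exact h1.inter (h2.inter h3)

theorem smul_mem_tube {e : E} (he : ‖e‖ = 1) {a b w t : ℝ} (h1 : a < t) (h2 : t < b)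
    (hw : 0 < w) : t • e ∈ tube e a b w := by
  have : inner ℝ e (t • e) = t := by
    rw [inner_smul_right, real_inner_self_eq_norm_sq, he]; ring
  simp only [tube, mem_ofPred_eq, this, sub_self, norm_zero]
  exact ⟨h1, h2, hw⟩

theorem norm_le_of_mem_tube {e : E} (he : ‖e‖ = 1) {a b w : ℝ} {x : E} (hx : x ∈ tube e a b w) :
    ‖x‖ ≤ w + (|a| + |b|) := by
  obtain ⟨h1, h2, h3⟩ := hx
  have h4 : ‖x‖ ≤ ‖x - inner ℝ e x • e‖ + ‖inner ℝ e x • e‖ := by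
    simpa using norm_add_le (x - inner ℝ e x • e) (inner ℝ e x • e)
  rw [norm_smul, he, mul_one, Real.norm_eq_abs] at h4
  have h5 : |inner ℝ e x| ≤ |a| + |b| := by
    rw [abs_le]
    constructor <;> linarith [le_abs_self b, neg_abs_le a, abs_nonneg a, abs_nonneg b]
  linarith

theorem affine_mem_tube {e : E} (he : ‖e‖ = 1) {ρ a b w : ℝ} (hρ : 0 < ρ) {x : E} :
    (-ρ) • x + (-ρ) • e ∈ tube e a b w ↔ a < -ρ * (inner ℝ e x + 1) ∧
      -ρ * (inner ℝ e x + 1) < b ∧ ρ * ‖x - inner ℝ e x • e‖ < w := by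
  have h1 : inner ℝ e ((-ρ) • x + (-ρ) • e) = -ρ * (inner ℝ e x + 1) := by
    rw [inner_add_right, inner_smul_right, inner_smul_right, real_inner_self_eq_norm_sq, he]; ring
  have h2 : (-ρ) • x + (-ρ) • e - (-ρ * (inner ℝ e x + 1)) • e =
      (-ρ) • (x - inner ℝ e x • e) := by module
  simp only [tube, mem_ofPred_eq, h1, h2, norm_smul, norm_neg, Real.norm_of_nonneg hρ.le]

variable [CompleteSpace E] [MeasurableSpace E] [BorelSpace E] [FiniteDimensional ℝ E]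
  {μ : Measure E} [μ.IsAddHaarMeasure]

theorem isBounded_tube {e : E} (he : ‖e‖ = 1) (a b w : ℝ) : Bornology.IsBounded (tube e a b w) :=
  isBounded_iff_forall_norm_le.2 ⟨_, fun _ hx => norm_le_of_mem_tube he hx⟩

theorem exists_thin (hN : 2 ≤ finrank ℝ E) {e : E} (he : ‖e‖ = 1) (a b : ℝ) {ρ : ℝ} (hρ : 0 < ρ) :
    ∃ ε : ℝ, 0 < ε ∧ ε ≤ 1 ∧ μ.real (tube e a b ε) ≤ ρ := by
  have h1 := tendsto_measure_biInter_gt (μ := μ) (s := fun ε => tube e a b ε) (a := (0 : ℝ))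
    (fun ε _ => (isOpen_tube e a b ε).measurableSet.nullMeasurableSet)
    (fun i j _ hij x hx => ⟨hx.1, hx.2.1, hx.2.2.trans_le hij⟩)
    ⟨1, one_pos, (isBounded_tube he a b 1).measure_lt_top.ne⟩
  have h2 : μ (⋂ ε > (0 : ℝ), tube e a b ε) = 0 := by
    refine measure_mono_null (t := (ℝ ∙ e : Submodule ℝ E)) (fun x hx => ?_)
      (Measure.addHaar_submodule μ _ fun htop => ?_)
    · simp only [mem_iInter] at hx
      have : ‖x - inner ℝ e x • e‖ ≤ 0 := le_of_forall_pos_le_add fun ε hε => by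
        simpa using (hx ε hε).2.2.le
      rw [norm_le_zero_iff, sub_eq_zero] at this
      exact Submodule.mem_span_singleton.2 ⟨_, this.symm⟩
    · have h3 : finrank ℝ (ℝ ∙ e : Submodule ℝ E) = 1 :=
        finrank_span_singleton (by rw [← norm_ne_zero_iff, he]; exact one_ne_zero)
      rw [htop, finrank_top] at h3
      omega
  rw [h2] at h1
  have h4 : ∀ᶠ ε in 𝓝[>] (0 : ℝ), μ (tube e a b ε) < ENNReal.ofReal ρ :=
    h1.eventually (gt_mem_nhds (ENNReal.ofReal_pos.2 hρ))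
  have h5 : ∀ᶠ ε in 𝓝[>] (0 : ℝ), ε < 1 := nhdsWithin_le_nhds (gt_mem_nhds one_pos)
  obtain ⟨ε, h6, h7, h8⟩ := (eventually_mem_nhdsWithin.and (h4.and h5)).exists
  exact ⟨ε, h6, h8.le, ENNReal.toReal_le_of_le_ofReal hρ.le h7.le⟩

theorem exists_domain (hN : 2 ≤ finrank ℝ E) {q : ℝ} (hq : 2 < q)
    (hq' : ((finrank ℝ E : ℝ) - 2) * q < 2 * finrank ℝ E) :
    ∃ Ω : Set E, IsOpen Ω ∧ Bornology.IsBounded Ω ∧ IsConnected Ω ∧
      ∃ lam ∈ spec μ Ω q, lam ∉ specLS μ Ω q := by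
  have hq0 : 0 < q := by linarith
  have : Fact (1 ≤ ENNReal.ofReal q) := ⟨by
    rw [← ENNReal.ofReal_one]; exact ENNReal.ofReal_le_ofReal (by linarith)⟩
  have : Nontrivial E := Module.nontrivial_of_finrank_pos (R := ℝ) (by omega)
  obtain ⟨e, he⟩ := exists_norm_eq E zero_le_one
  set α : ℝ := 2 - finrank ℝ E + 2 * finrank ℝ E / q with hα
  have hα0 : 0 < α := by
    have : (finrank ℝ E : ℝ) - 2 < 2 * finrank ℝ E / q := by rwa [lt_div_iff₀ hq0]
    linarith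
  have hc : (1 : ℝ) < (3 / 4)⁻¹ ^ (1 - 2 / q) :=
    Real.one_lt_rpow (by norm_num) (by rw [sub_pos, div_lt_one hq0]; exact hq)
  obtain ⟨ρ, hρ1, hρ2⟩ : ∃ ρ : ℝ, 1 < ρ ∧ ρ ^ α < (3 / 4)⁻¹ ^ (1 - 2 / q) := by
    have : ∀ᶠ ρ : ℝ in 𝓝 1, ρ ^ α < (3 / 4)⁻¹ ^ (1 - 2 / q) :=
      ContinuousAt.eventually_lt (Real.continuousAt_rpow_const _ _ (Or.inr hα0.le))
        continuousAt_const (by rwa [Real.one_rpow])
    exact ((eventually_mem_nhdsWithin (a := (1 : ℝ)) (s := Ioi 1)).and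
      (nhdsWithin_le_nhds this)).exists
  have hρ0 : 0 < ρ := by linarith
  set B : E → E := fun x => (-ρ) • x + (-ρ) • e with hB
  have hBc : Continuous B := by fun_prop
  set a : ℝ := -3 * ρ - 1 with ha
  have hBg : Bornology.IsBounded (tube e a 2 1 ∪ B ⁻¹' tube e a 2 1) := by
    refine (isBounded_tube he _ _ _).union (isBounded_iff_forall_norm_le.2
      ⟨1 + (|a| + |2|) + 1, fun x hx => ?_⟩)
    have h1 := norm_le_of_mem_tube he hx
    simp only [hB, ← smul_add, norm_smul, norm_neg, Real.norm_of_nonneg hρ0.le] at h1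
    have h2 : ‖x‖ ≤ ‖x + e‖ + ‖e‖ := by simpa using norm_sub_le (x + e) e
    nlinarith [norm_nonneg (x + e)]
  have hx₀ : ∀ b w, -3 * ρ ≤ b → 0 < w → (-3 * ρ - 1 / 2) • e ∈ tube e a b w :=
    fun b w hb hw => smul_mem_tube he (by linarith) (by linarith) hw
  obtain ⟨up, hup⟩ := exists_isLam (μ := μ) hq0 (isOpen_tube e a (-3 * ρ) 1)
    ⟨_, hx₀ _ _ le_rfl one_pos⟩
  obtain ⟨ρ₀, hρ₀, H⟩ := dumbbell (μ := μ) hN hq hq' he hBg (up := up)
    (Real.one_lt_rpow hρ1 hα0) hρ2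
  obtain ⟨ε, hε0, hε1, hε⟩ := exists_thin (μ := μ) hN he a 2 hρ₀
  have hερ : ε / ρ ≤ ε := div_le_self hε0.le hρ1.le
  have hερ0 : 0 < ε / ρ := by positivity
  set Ω₁ : Set E := tube e a (-3 * ρ) 1 ∪ tube e a 0 ε ∪ tube e a 2 (ε / ρ) with hΩ₁
  have ho₁ : IsOpen Ω₁ := ((isOpen_tube _ _ _ _).union (isOpen_tube _ _ _ _)).union
    (isOpen_tube _ _ _ _)
  have hc₁ : IsConnected Ω₁ := by
    have p1 := hx₀ _ _ le_rfl one_pos
    have p2 := hx₀ 0 _ (by linarith) hε0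
    have p3 := hx₀ 2 _ (by linarith) hερ0
    exact IsConnected.union ⟨_, Or.inl p1, p3⟩ (IsConnected.union ⟨_, p1, p2⟩
      ((convex_tube _ _ _ _).isConnected ⟨_, p1⟩) ((convex_tube _ _ _ _).isConnected ⟨_, p2⟩))
      ((convex_tube _ _ _ _).isConnected ⟨_, p3⟩)
  have hsub₁ : Ω₁ ⊆ tube e a 2 1 := by
    rintro x ((hx | hx) | hx)
    · exact ⟨hx.1, by linarith [hx.2.1], hx.2.2⟩
    · exact ⟨hx.1, by linarith [hx.2.1], by linarith [hx.2.2]⟩
    · exact ⟨hx.1, hx.2.1, by linarith [hx.2.2]⟩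
  have g₂ : ∀ x ∈ B ⁻¹' Ω₁, inner ℝ e x ≤ 1 → x ∈ Ω₁ ∩ tube e a 2 ε := by
    intro x hx h
    suffices x ∈ tube e a 2 (ε / ρ) from
      ⟨Or.inr this, this.1, this.2.1, this.2.2.trans_le hερ⟩
    rcases hx with (hx | hx) | hx <;> obtain ⟨h1, h2, h3⟩ := (affine_mem_tube he hρ0).1 hx
    · nlinarith
    · exact ⟨by nlinarith, by linarith, by rwa [lt_div_iff₀' hρ0]⟩
    · refine ⟨?_, by linarith, ?_⟩
      · by_contra hcon
        rw [not_lt, ha] at hcon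
        nlinarith
      · rw [lt_div_iff₀' hρ0]; linarith
  have g₁ : ∀ x ∈ Ω₁, 0 ≤ inner ℝ e x → x ∈ B ⁻¹' Ω₁ ∩ tube e a 2 ε := by
    rintro x ((hx | hx) | hx) h
    · linarith [hx.2.1]
    · linarith [hx.2.1]
    · obtain ⟨h1, h2, h3⟩ := hx
      refine ⟨Or.inl (Or.inr ((affine_mem_tube he hρ0).2 ⟨?_, ?_, ?_⟩)), h1, h2, h3.trans_le hερ⟩
      · nlinarith
      · nlinarith
      · rwa [lt_div_iff₀' hρ0] at h3
  obtain ⟨m, hm⟩ := exists_isLam (μ := μ) hq0 ho₁ hc₁.nonempty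
  have h0 : (0 : ℝ) • e ∈ Ω₁ := Or.inr (smul_mem_tube he (by linarith) two_pos hερ0)
  refine ⟨Ω₁ ∪ B ⁻¹' Ω₁, ho₁.union (ho₁.preimage hBc),
    hBg.subset (union_subset_union hsub₁ (preimage_mono hsub₁)),
    IsConnected.union ⟨_, h0, (g₁ _ h0 (by simp)).1⟩ hc₁ ?_,
    H Ω₁ (B ⁻¹' Ω₁) (tube e a 2 ε) m ho₁ (ho₁.preimage hBc)
      (union_subset_union hsub₁ (preimage_mono hsub₁)) g₂ g₁ (isOpen_tube _ _ _ _).measurableSet
      (isBounded_tube he _ _ _).measure_lt_top.ne hε hm (hm.comp_affine hq0 hρ0 _)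
      (hup.le (hm.1.mono (subset_union_left.trans subset_union_left)))⟩
  exact ((Homeomorph.smulOfNeZero (-ρ) (neg_ne_zero.2 hρ0.ne')).trans
    (Homeomorph.addRight ((-ρ) • e))).isConnected_preimage.2 hc₁

end Pool.Agent.Lib.MP_eb4995_an
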