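import Mathlib
import Pool.Agent.Lib.MP_eb4995_an.Defs
import Pool.Agent.Lib.MP_eb4995_an.Cv.Final

namespace Pool.Agent.Lib.MP_eb4995_an.OldConvexDomain

open Pool.Agent.Lib.MP_eb4995_an MeasureTheory

/-- For every `q > 2` close to `2` some open rectangle in the plane has a `q`-eigenvalue that is
not a Lusternik-Schnirelman value. -/
theorem result : ∃ δ : ℝ, 0 < δ ∧ ∀ q : ℝ, 2 < q → q < 2 + δ → ∃ a b : ℝ, 0 < a ∧ 0 < b ∧
    ∃ lam ∈ spec volume {x : EuclideanSpace ℝ (Fin 2) | |x 0| < a ∧ |x 1| < b} q,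
      lam ∉ specLS volume {x : EuclideanSpace ℝ (Fin 2) | |x 0| < a ∧ |x 1| < b} q :=
  Cv.exists_rect

end Pool.Agent.Lib.MP_eb4995_an.OldConvexDomain
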